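import Pool.Agent.S11.FL.Grade
import Pool.Agent.H58.MN.Alg
import Pool.Agent.S11.Ord

/-!
# Project TW, flatness: series with coefficients in a ring

`Ser A Q` (H58/MN) = Malcev-Neumann series over the bi-ordered group `Q` with coefficients in the ring `A`.
`p : J →* Q` surjective, `u : J →* A`; `jJ h = u(h) [p h]`.
-/

set_option autoImplicit false
set_option linter.unusedSectionVars false

open TensorProduct

namespace Pool.Agent.TW.F

open Pool.Agent.S11 Pool.Agent.S11.FL
open Pool.Agent.H58.MN (Ser)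

section

variable {A : Type} [Ring A] {Q : Type} [Group Q] [BO Q]

theorem single_zero (q : Q) : (Ser.single q (0 : A) : Ser A Q) = 0 := by
  ext x
  by_cases h : x = q
  · rw [h, Ser.single_self]
    rfl
  · rw [Ser.single_ne h]
    rfl

/-- the constants -/
noncomputable def inc : A →+* Ser A Q where
  toFun a := Ser.single 1 a
  map_one' := rfl
  map_mul' a b := by rw [Ser.single_mul_single, one_mul]
  map_zero' := single_zero 1
  map_add' a b := Ser.single_add 1 a b

theorem inc_apply (a : A) : (inc a : Ser A Q) = Ser.single 1 a := rfl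

/-- the series with one term, as an additive map -/
noncomputable def sgl (q : Q) : A →+ Ser A Q where
  toFun a := Ser.single q a
  map_zero' := single_zero q
  map_add' a b := Ser.single_add q a b

theorem sgl_apply (q : Q) (a : A) : sgl q a = Ser.single q a := rfl

variable [Algebra (ZMod 2) A]

noncomputable scoped instance instAlgSer : Algebra (ZMod 2) (Ser A Q) :=
  RingHom.toAlgebra' ((inc : A →+* Ser A Q).comp (algebraMap (ZMod 2) A)) (fun k f => by
    ext x
    rw [RingHom.comp_apply, inc_apply, Ser.single_mul_apply, Ser.mul_single_apply]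
    simp only [inv_one, one_mul, mul_one]
    exact Algebra.commutes k (f x))

theorem smul_apply (k : ZMod 2) (f : Ser A Q) (x : Q) : (k • f) x = k • f x := by
  rw [Algebra.smul_def, Algebra.smul_def]
  change (Ser.single 1 (algebraMap (ZMod 2) A k) * f : Ser A Q) x = _
  rw [Ser.single_mul_apply, inv_one, one_mul]

variable {J : Type} [Group J] (p : J →* Q) (u : J →* A)

/-- the group elements in the series -/
noncomputable def jJ : J →* Ser A Q where
  toFun h := Ser.single (p h) (u h)
  map_one' := by rw [map_one, map_one]; rfl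
  map_mul' g h := by rw [map_mul, map_mul, Ser.single_mul_single]

theorem jJ_apply (h : J) : jJ p u h = Ser.single (p h) (u h) := rfl

theorem jJ_ker {n : J} (hn : n ∈ p.ker) : jJ p u n = Ser.single 1 (u n) := by
  rw [jJ_apply, MonoidHom.mem_ker.1 hn]

theorem jJ_mul_apply (h : J) (f : Ser A Q) (x : Q) : (jJ p u h * f) x = u h * f ((p h)⁻¹ * x) :=
  Ser.single_mul_apply _ _ _ _

theorem mul_jJ_apply (h : J) (f : Ser A Q) (x : Q) : (f * jJ p u h) x = f (x * (p h)⁻¹) * u h :=
  Ser.mul_single_apply _ _ _ _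

variable {X : Type} [AddCommGroup X] [Module (ZMod 2) X] (ρ : Representation (ZMod 2) J X)

/-- the coinvariants of the kernel -/
abbrev WW : Type := MM (ZMod 2) A X ⧸ II u ρ p.ker

variable (hp : Function.Surjective p)

/-- a translate, modulo the kernel -/
noncomputable def Tr (α : Q) : MM (ZMod 2) A X →ₗ[ZMod 2] WW p u ρ :=
  (II u ρ p.ker).mkQ ∘ₗ act u ρ (Function.surjInv hp α)

theorem Tr_eq (h : J) (m : MM (ZMod 2) A X) : (II u ρ p.ker).mkQ (act u ρ h m) = Tr p u ρ hp (p h) m := by
  rw [Tr, LinearMap.comp_apply, ← sub_eq_zero, ← map_sub, ← LinearMap.mem_ker, Submodule.ker_mkQ]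
  have e : (h * (Function.surjInv hp (p h))⁻¹) * Function.surjInv hp (p h) = h := by group
  have hn : h * (Function.surjInv hp (p h))⁻¹ ∈ p.ker := by
    rw [MonoidHom.mem_ker, map_mul, map_inv, Function.surjInv_eq hp, mul_inv_cancel]
  have h1 := act_sub_mem u ρ hn (act u ρ (Function.surjInv hp (p h)) m)
  rw [← act_mul_apply, e] at h1
  exact h1

theorem Tr_act (h : J) (α : Q) (m : MM (ZMod 2) A X) :
    Tr p u ρ hp α (act u ρ h m) = Tr p u ρ hp (α * p h) m := by
  conv_lhs => rw [← Function.surjInv_eq hp α, ← Tr_eq, ← act_mul_apply]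
  rw [Tr_eq p u ρ hp, map_mul, Function.surjInv_eq hp]

/-- the placement of the last factor in the degree `d` -/
noncomputable def eps (d : Q) : MM (ZMod 2) A X →ₗ[ZMod 2] MM (ZMod 2) (Ser A Q) X :=
  TensorProduct.map ((inc : A →+* Ser A Q).toAddMonoidHom.toZModLinearMap 2)
    (TensorProduct.map LinearMap.id ((sgl d).toZModLinearMap 2))

theorem eps_tmul (d : Q) (a : A) (x : X) (b : A) :
    eps d (a ⊗ₜ[ZMod 2] (x ⊗ₜ[ZMod 2] b)) = Ser.single 1 a ⊗ₜ[ZMod 2] (x ⊗ₜ[ZMod 2] Ser.single d b) := rfl

theorem eps_act (d : Q) {n : J} (hn : n ∈ p.ker) (m : MM (ZMod 2) A X) :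
    eps d (act u ρ n m) = act (jJ p u) ρ n (eps d m) := by
  have : eps d ∘ₗ act u ρ n = act (jJ p u) ρ n ∘ₗ eps d := MM_ext fun a x b => by
    rw [LinearMap.comp_apply, LinearMap.comp_apply, act_tmul, eps_tmul, eps_tmul, act_tmul, jJ_ker p u hn,
      jJ_ker p u (inv_mem hn), Ser.single_mul_single, Ser.single_mul_single, one_mul, one_mul]
  exact LinearMap.congr_fun this m

theorem eps_II (d : Q) {m : MM (ZMod 2) A X} (hm : m ∈ II u ρ p.ker) :
    eps d m ∈ II (jJ p u) ρ (⊤ : Subgroup J) := by
  have : II u ρ p.ker ≤ (II (jJ p u) ρ (⊤ : Subgroup J)).comap (eps d) := II_le u ρ fun n hn m => by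
    rw [Submodule.mem_comap, map_sub, eps_act p u ρ d hn]
    exact act_sub_mem _ ρ (Subgroup.mem_top n) _
  exact this hm

/-- a tensor of monomials, modulo the coinvariants -/
theorem single_tmul_single (h : J) (d : Q) (a : A) (x : X) (b : A) :
    act (jJ p u) ρ h (Ser.single (p h) a ⊗ₜ[ZMod 2] (x ⊗ₜ[ZMod 2] Ser.single d b)) =
      eps (p h * d) (act u ρ h (a ⊗ₜ[ZMod 2] (x ⊗ₜ[ZMod 2] b))) := by
  rw [act_tmul, act_tmul, eps_tmul, jJ_apply, jJ_apply, Ser.single_mul_single, Ser.single_mul_single, map_inv,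
    mul_inv_cancel]

end

end Pool.Agent.TW.F
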