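import Pool.Agent.S11.FL.Grade

/-!
# Project TW, flatness: from a division ring `E` to a ring `A` which contains it

PROOF.  `A` has a basis `a_i` as a right `E`-module and a basis `b_j` as a left `E`-module (`E` acts through `kE`); `r_i : A → E` = the
coordinates, right `E`-linear (`r_i (a * kE e) = r_i a * e`), `l_j : A → E` left `E`-linear.  `R i j = r_i ⊗ (1 ⊗ l_j) : MM A X → MM E X`
commutes with the actions of `s n` and `n` (`n : N₁`) and with `mapX`; `T i j = (a_i * kE ·) ⊗ (1 ⊗ (kE · * b_j)) : MM E X → MM A X` commutes with these actions.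
For every `m` there are finite sets `I`, `J` such that for all `I' ⊇ I`, `J' ⊇ J`: `m = ∑ i ∈ I', ∑ j ∈ J', T i j (R i j m)` (induction on `m`).
If `mapX i m ∈ II u ρ N` then `R i j (mapX i m) = mapX i (R i j m) ∈ II jE (ρ.comp s) ⊤`, so `R i j m ∈ II jE (ρ'.comp s) ⊤` (flatness), so
`T i j (R i j m) ∈ II u ρ' N`.
-/

set_option autoImplicit false
set_option linter.unusedSectionVars false

open TensorProduct

namespace Pool.Agent.TW.F

open Pool.Agent.S11 Pool.Agent.S11.FL

/-- left coordinates -/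
theorem exists_left {A E : Type} [Ring A] [DivisionRing E] (kE : E →+* A) :
    ∃ (ι : Type) (b : ι → A) (l : ι → A →+ E), (∀ i a e, l i (kE e * a) = e * l i a) ∧
      ∀ a, ∃ I : Finset ι, ∀ I', I ⊆ I' → ∑ i ∈ I', kE (l i a) * b i = a := by
  let _ : Module E A := Module.compHom A kE
  have hsm : ∀ (e : E) (a : A), e • a = kE e * a := fun _ _ => rfl
  let B := Module.Basis.ofVectorSpace E A
  refine ⟨_, B, fun i => (Finsupp.applyAddHom i).comp B.repr.toAddMonoidHom, fun i a e => ?_, fun a => ?_⟩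
  · change B.repr (kE e * a) i = e * B.repr a i
    rw [← hsm, map_smul, Finsupp.smul_apply, smul_eq_mul]
  · refine ⟨(B.repr a).support, fun I' hI => ?_⟩
    have h1 := B.linearCombination_repr a
    rw [Finsupp.linearCombination_apply] at h1
    exact (Finsupp.sum_of_support_subset (B.repr a) hI (fun i c => c • B i) (fun i _ => zero_smul E (B i))).symm.trans h1

/-- right coordinates -/
theorem exists_right {A E : Type} [Ring A] [DivisionRing E] (kE : E →+* A) :
    ∃ (ι : Type) (b : ι → A) (r : ι → A →+ E), (∀ i a e, r i (a * kE e) = r i a * e) ∧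
      ∀ a, ∃ I : Finset ι, ∀ I', I ⊆ I' → ∑ i ∈ I', b i * kE (r i a) = a := by
  obtain ⟨ι, b, l, h1, h2⟩ := exists_left (A := Aᵐᵒᵖ) (E := Eᵐᵒᵖ) (RingHom.op kE)
  refine ⟨ι, fun i => (b i).unop, fun i => (MulOpposite.opAddEquiv.symm.toAddMonoidHom.comp (l i)).comp
    MulOpposite.opAddEquiv.toAddMonoidHom, fun i a e => ?_, fun a => ?_⟩
  · have h3 := h1 i (MulOpposite.op a) (MulOpposite.op e)
    exact congrArg MulOpposite.unop h3
  · obtain ⟨I, hI⟩ := h2 (MulOpposite.op a)
    refine ⟨I, fun I' hI' => ?_⟩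
    have h3 := congrArg MulOpposite.unop (hI I' hI')
    rw [MulOpposite.unop_op] at h3
    refine Eq.trans ?_ h3
    exact (map_sum (MulOpposite.opAddEquiv (α := A)).symm
      (fun i => (RingHom.op kE) ((l i) (MulOpposite.op a)) * b i) I').symm

section

variable {A : Type} [Ring A] [Algebra (ZMod 2) A] {J : Type} [Group J] (u : J →* A) (N : Subgroup J)
  {E : Type} [DivisionRing E] [Algebra (ZMod 2) E] {N₁ : Type} [Group N₁]

/-- to the coordinates -/
noncomputable def fR {X : Type} [AddCommGroup X] [Module (ZMod 2) X] (r l : A →+ E) :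
    MM (ZMod 2) A X →ₗ[ZMod 2] MM (ZMod 2) E X :=
  TensorProduct.map (r.toZModLinearMap 2) (TensorProduct.map LinearMap.id (l.toZModLinearMap 2))

/-- from the coordinates -/
noncomputable def fT {X : Type} [AddCommGroup X] [Module (ZMod 2) X] (kE : E →+* A) (b b' : A) :
    MM (ZMod 2) E X →ₗ[ZMod 2] MM (ZMod 2) A X :=
  TensorProduct.map (((AddMonoidHom.mulLeft b).comp kE.toAddMonoidHom).toZModLinearMap 2)
    (TensorProduct.map LinearMap.id (((AddMonoidHom.mulRight b').comp kE.toAddMonoidHom).toZModLinearMap 2))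

theorem fR_tmul {X : Type} [AddCommGroup X] [Module (ZMod 2) X] (r l : A →+ E) (a : A) (x : X) (b : A) :
    fR r l (a ⊗ₜ[ZMod 2] (x ⊗ₜ[ZMod 2] b)) = r a ⊗ₜ[ZMod 2] (x ⊗ₜ[ZMod 2] l b) := rfl

theorem fT_tmul {X : Type} [AddCommGroup X] [Module (ZMod 2) X] (kE : E →+* A) (b b' : A) (c : E) (x : X) (d : E) :
    fT kE b b' (c ⊗ₜ[ZMod 2] (x ⊗ₜ[ZMod 2] d)) = (b * kE c) ⊗ₜ[ZMod 2] (x ⊗ₜ[ZMod 2] (kE d * b')) := rfl

theorem fR_mapX {X' X : Type} [AddCommGroup X'] [Module (ZMod 2) X'] [AddCommGroup X] [Module (ZMod 2) X]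
    (r l : A →+ E) (i : X' →ₗ[ZMod 2] X) (m : MM (ZMod 2) A X') : fR r l (mapX A i m) = mapX E i (fR r l m) := by
  have : fR r l ∘ₗ mapX A i = mapX E i ∘ₗ fR r l := MM_ext fun a x b => by
    rw [LinearMap.comp_apply, LinearMap.comp_apply, mapX_tmul, fR_tmul, fR_tmul, mapX_tmul]
  exact LinearMap.congr_fun this m

theorem fR_II {X : Type} [AddCommGroup X] [Module (ZMod 2) X] (ρ : Representation (ZMod 2) J X) (s : N₁ →* J)
    (hs : s.range = N) (kE : E →+* A)
    (jE : N₁ →* E) (hjE : ∀ n : N₁, kE (jE n) = u (s n)) {r l : A →+ E} (hr : ∀ a e, r (a * kE e) = r a * e)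
    (hl : ∀ a e, l (kE e * a) = e * l a) {m : MM (ZMod 2) A X} (hm : m ∈ II u ρ N) :
    fR r l m ∈ II jE (ρ.comp s : Representation (ZMod 2) N₁ X) (⊤ : Subgroup N₁) := by
  have : II u ρ N ≤ (II jE (ρ.comp s : Representation (ZMod 2) N₁ X) (⊤ : Subgroup N₁)).comap (fR r l) := by
    refine II_le u ρ fun n hn m => ?_
    rw [← hs] at hn
    obtain ⟨n, rfl⟩ := hn
    have e : fR r l ∘ₗ act u ρ (s n) =
        act jE (ρ.comp s : Representation (ZMod 2) N₁ X) n ∘ₗ fR r l := MM_ext fun a x b => by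
      rw [LinearMap.comp_apply, LinearMap.comp_apply, act_tmul, fR_tmul, fR_tmul, act_tmul]
      rw [← map_inv s n, ← hjE, ← hjE, hr, hl]
      rfl
    rw [Submodule.mem_comap, map_sub]
    rw [show fR r l (act u ρ (s n) m) = act jE (ρ.comp s : Representation (ZMod 2) N₁ X) n (fR r l m) from
      LinearMap.congr_fun e m]
    exact act_sub_mem _ _ (Subgroup.mem_top _) _
  exact this hm

theorem fT_II {X : Type} [AddCommGroup X] [Module (ZMod 2) X] (ρ : Representation (ZMod 2) J X) (s : N₁ →* J)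
    (hs : s.range = N) (kE : E →+* A)
    (jE : N₁ →* E) (hjE : ∀ n : N₁, kE (jE n) = u (s n)) (b b' : A) {m : MM (ZMod 2) E X}
    (hm : m ∈ II jE (ρ.comp s : Representation (ZMod 2) N₁ X) (⊤ : Subgroup N₁)) :
    fT kE b b' m ∈ II u ρ N := by
  have : II jE (ρ.comp s : Representation (ZMod 2) N₁ X) (⊤ : Subgroup N₁) ≤
      (II u ρ N).comap (fT kE b b') := by
    refine II_le _ _ fun n _ m => ?_
    have e : fT kE b b' ∘ₗ act jE (ρ.comp s : Representation (ZMod 2) N₁ X) n =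
        act u ρ (s n) ∘ₗ fT kE b b' := MM_ext fun a x c => by
      rw [LinearMap.comp_apply, LinearMap.comp_apply, act_tmul, fT_tmul, fT_tmul, act_tmul, map_mul, map_mul, hjE,
        hjE, mul_assoc b, mul_assoc (u (s n)), map_inv s n]
      rfl
    rw [Submodule.mem_comap, map_sub]
    rw [show fT kE b b' (act jE (ρ.comp s : Representation (ZMod 2) N₁ X) n m) =
      act u ρ (s n) (fT kE b b' m) from LinearMap.congr_fun e m]
    exact act_sub_mem _ _ (hs ▸ ⟨n, rfl⟩ : s n ∈ N) _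
  exact this hm

theorem fTR {X : Type} [AddCommGroup X] [Module (ZMod 2) X] (kE : E →+* A) {ι κ : Type} (a : ι → A) (r : ι → A →+ E)
    (ha : ∀ c, ∃ I : Finset ι, ∀ I', I ⊆ I' → ∑ i ∈ I', a i * kE (r i c) = c) (b : κ → A) (l : κ → A →+ E)
    (hb : ∀ c, ∃ I : Finset κ, ∀ I', I ⊆ I' → ∑ i ∈ I', kE (l i c) * b i = c) (m : MM (ZMod 2) A X) :
    ∃ (I : Finset ι) (K : Finset κ), ∀ I', I ⊆ I' → ∀ K', K ⊆ K' →
      ∑ i ∈ I', ∑ k ∈ K', fT kE (a i) (b k) (fR (r i) (l k) m) = m := by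
  classical
  induction m using TensorProduct.induction_on with
  | zero => exact ⟨∅, ∅, fun I' _ K' _ => by simp⟩
  | add s t hs ht =>
    obtain ⟨I₁, K₁, h1⟩ := hs
    obtain ⟨I₂, K₂, h2⟩ := ht
    refine ⟨I₁ ∪ I₂, K₁ ∪ K₂, fun I' hI K' hK => ?_⟩
    simp only [map_add, Finset.sum_add_distrib]
    rw [h1 I' (Finset.union_subset_left hI) K' (Finset.union_subset_left hK),
      h2 I' (Finset.union_subset_right hI) K' (Finset.union_subset_right hK)]
  | tmul c t =>
    induction t using TensorProduct.induction_on with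
    | zero => exact ⟨∅, ∅, fun I' _ K' _ => by simp⟩
    | add s t hs ht =>
      obtain ⟨I₁, K₁, h1⟩ := hs
      obtain ⟨I₂, K₂, h2⟩ := ht
      refine ⟨I₁ ∪ I₂, K₁ ∪ K₂, fun I' hI K' hK => ?_⟩
      simp only [TensorProduct.tmul_add, map_add, Finset.sum_add_distrib]
      rw [h1 I' (Finset.union_subset_left hI) K' (Finset.union_subset_left hK),
        h2 I' (Finset.union_subset_right hI) K' (Finset.union_subset_right hK)]
    | tmul x d =>
      obtain ⟨I, hI⟩ := ha c
      obtain ⟨K, hK⟩ := hb d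
      refine ⟨I, K, fun I' hI' K' hK' => ?_⟩
      simp only [fR_tmul, fT_tmul]
      conv_rhs => rw [← hI I' hI', ← hK K' hK']
      rw [TensorProduct.sum_tmul]
      refine Finset.sum_congr rfl fun i _ => ?_
      rw [TensorProduct.tmul_sum, TensorProduct.tmul_sum]

/-- **From `E` to `A`** (`s` is a homomorphism onto `N`) -/
theorem flatOn_of_sub (s : N₁ →* J) (hs : s.range = N) (kE : E →+* A) (jE : N₁ →* E)
    (hjE : ∀ n : N₁, kE (jE n) = u (s n))
    (hE : FlatOn.{0} (K := ZMod 2) jE (⊤ : Subgroup N₁)) : FlatOn.{0} (K := ZMod 2) u N := by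
  intro X' X _ _ _ _ ρ' ρ i hi hρ m hm
  obtain ⟨ι, a, r, hr, ha⟩ := exists_right kE
  obtain ⟨κ, b, l, hl, hb⟩ := exists_left kE
  obtain ⟨I, K, h⟩ := fTR kE a r ha b l hb m
  rw [← h I subset_rfl K subset_rfl]
  refine Submodule.sum_mem _ fun i' _ => Submodule.sum_mem _ fun k _ => ?_
  refine fT_II u N ρ' s hs kE jE hjE _ _ ?_
  refine hE X' X (ρ'.comp s : Representation (ZMod 2) N₁ X')
    (ρ.comp s : Representation (ZMod 2) N₁ X) i hi (fun g x => hρ (s g) x) _ ?_
  rw [← fR_mapX]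
  exact fR_II u N ρ s hs kE jE hjE (hr i') (hl k) hm

end

end Pool.Agent.TW.F
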