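import Pool.Agent.TW.F.Key

/-!
# Project TW, flatness: the division rings in the series whose elements have finite fibres and denominators
-/

set_option autoImplicit false
set_option linter.unusedSectionVars false

open TensorProduct

namespace Pool.Agent.TW.F

open Pool.Agent.S11 Pool.Agent.S11.FL
open Pool.Agent.H58.MN (Ser)

section

variable {V D : Type} [Ring V] [Nontrivial V] [Ring D] [Nontrivial D]

/-- a retraction, linear over `D` on the left -/
theorem exists_retr_l (hD : ∀ a : D, IsUnit a ∨ a = 0) (i : D →+* V) :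
    ∃ p : V →+ D, (∀ d v, p (i d * v) = d * p v) ∧ ∀ d, p (i d) = d := by
  letI : DivisionRing D := DivisionRing.ofIsUnitOrEqZero hD
  letI : Module D V := Module.compHom V i
  let I : D →ₗ[D] V :=
    { toFun := i
      map_add' := map_add i
      map_smul' := fun a b => by
        show i (a * b) = i a * i b
        exact map_mul i a b }
  have hI : LinearMap.ker I = ⊥ := LinearMap.ker_eq_bot.2 i.injective
  obtain ⟨p, hp⟩ := LinearMap.exists_leftInverse_of_injective I hI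
  refine ⟨p.toAddMonoidHom, fun d v => ?_, fun d => LinearMap.congr_fun hp d⟩
  exact p.map_smul d v

/-- a retraction, linear over `D` on the right -/
theorem exists_retr_r (hD : ∀ a : D, IsUnit a ∨ a = 0) (i : D →+* V) :
    ∃ p : V →+ D, (∀ d v, p (v * i d) = p v * d) ∧ ∀ d, p (i d) = d := by
  letI : DivisionRing D := DivisionRing.ofIsUnitOrEqZero hD
  letI : Module Dᵐᵒᵖ V := Module.compHom V (RingHom.op i)
  let I : D →ₗ[Dᵐᵒᵖ] V :=
    { toFun := i
      map_add' := map_add i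
      map_smul' := fun a b => by
        show i (b * a.unop) = i b * i a.unop
        exact map_mul i b a.unop }
  have hI : LinearMap.ker I = ⊥ := LinearMap.ker_eq_bot.2 i.injective
  obtain ⟨p, hp⟩ := LinearMap.exists_leftInverse_of_injective I hI
  refine ⟨p.toAddMonoidHom, fun d v => ?_, fun d => LinearMap.congr_fun hp d⟩
  exact p.map_smul (MulOpposite.op d) v

end

section

variable {A : Type} [Ring A] {Q : Type} [Group Q] [BO Q] [Algebra (ZMod 2) A]
  {J : Type} [Group J] (p : J →* Q) (u : J →* A)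
  {D : Type} [Ring D] [Nontrivial D] [Algebra (ZMod 2) D] [Nontrivial (Ser A Q)]

/-- the fractions and the finite fibres, for finitely many elements -/
def HasFrac (κ : D →+* Ser A Q) : Prop :=
  ∀ F : Finset D, ∃ (Γ : Type) (_ : Group Γ) (_ : BO Γ) (φ : Q →* Γ), Monotone φ ∧ (∀ a ∈ F, Fine φ (κ a)) ∧
    (∃ s t : Ser A Q, t * s = 1 ∧ s ∈ SN φ ∧ ∀ a ∈ F, s * κ a ∈ SN φ) ∧
    ∃ s t : Ser A Q, s * t = 1 ∧ s ∈ SN φ ∧ ∀ a ∈ F, κ a * s ∈ SN φ

/-- the entries of a tensor -/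
theorem exists_entries (κ : D →ₗ[ZMod 2] Ser A Q) {X : Type} [AddCommGroup X] [Module (ZMod 2) X] (m : MM (ZMod 2) D X) :
    ∃ F : Finset D, TensorProduct.map κ (TensorProduct.map (LinearMap.id : X →ₗ[ZMod 2] X) κ) m ∈ TT X (κ '' (F : Set D)) := by
  classical
  have hTT : ∀ {M N : Finset D}, M ⊆ N → TT X (κ '' (M : Set D)) ≤ TT X (κ '' (N : Set D)) := by
    intro M N h
    refine Submodule.span_mono ?_
    rintro _ ⟨a, x, b, ha, hb, rfl⟩
    exact ⟨a, x, b, Set.image_mono (Finset.coe_subset.2 h) ha, Set.image_mono (Finset.coe_subset.2 h) hb, rfl⟩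
  induction m using TensorProduct.induction_on with
  | zero => exact ⟨∅, by rw [map_zero]; exact Submodule.zero_mem _⟩
  | add a b ha hb =>
    obtain ⟨M, hM⟩ := ha
    obtain ⟨N, hN⟩ := hb
    refine ⟨M ∪ N, ?_⟩
    rw [map_add]
    exact Submodule.add_mem _ (hTT Finset.subset_union_left hM) (hTT Finset.subset_union_right hN)
  | tmul a t =>
    induction t using TensorProduct.induction_on with
    | zero =>
      exact ⟨∅, by rw [TensorProduct.tmul_zero, map_zero]; exact Submodule.zero_mem _⟩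
    | add b c ha hb =>
      obtain ⟨M, hM⟩ := ha
      obtain ⟨N, hN⟩ := hb
      refine ⟨M ∪ N, ?_⟩
      rw [TensorProduct.tmul_add, map_add]
      exact Submodule.add_mem _ (hTT Finset.subset_union_left hM) (hTT Finset.subset_union_right hN)
    | tmul x b =>
      refine ⟨{a, b}, Submodule.subset_span ⟨κ a, x, κ b, ?_, ?_, rfl⟩⟩
      · exact ⟨a, by simp, rfl⟩
      · exact ⟨b, by simp, rfl⟩

/-- **Flatness** -/
theorem flatOn_of_frac (hD : ∀ a : D, IsUnit a ∨ a = 0) (hp : Function.Surjective p) (hflat : FlatOn.{0} (K := ZMod 2) u p.ker)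
    (κ : D →+* Ser A Q) (jD : J →* D) (hκ : ∀ h, κ (jD h) = jJ p u h) (hfrac : HasFrac κ) :
    FlatOn.{0} (K := ZMod 2) jD (⊤ : Subgroup J) := by
  classical
  obtain ⟨pl, hpl, hpl1⟩ := exists_retr_l hD κ
  obtain ⟨pr, hpr, hpr1⟩ := exists_retr_r hD κ
  let k : D →ₗ[ZMod 2] Ser A Q := κ.toAddMonoidHom.toZModLinearMap 2
  let p₁ : Ser A Q →ₗ[ZMod 2] D := pr.toZModLinearMap 2
  let p₂ : Ser A Q →ₗ[ZMod 2] D := pl.toZModLinearMap 2
  have hk : ∀ d, k d = κ d := fun _ => rfl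
  have hp₁ : ∀ v, p₁ v = pr v := fun _ => rfl
  have hp₂ : ∀ v, p₂ v = pl v := fun _ => rfl
  intro X' X _ _ _ _ ρ' ρ i hinj hi m hm
  let I' : MM (ZMod 2) D X' →ₗ[ZMod 2] MM (ZMod 2) (Ser A Q) X' :=
    TensorProduct.map k (TensorProduct.map LinearMap.id k)
  let I : MM (ZMod 2) D X →ₗ[ZMod 2] MM (ZMod 2) (Ser A Q) X :=
    TensorProduct.map k (TensorProduct.map LinearMap.id k)
  let P : MM (ZMod 2) (Ser A Q) X' →ₗ[ZMod 2] MM (ZMod 2) D X' :=
    TensorProduct.map p₁ (TensorProduct.map LinearMap.id p₂)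
  have hI' : ∀ a x b, I' (a ⊗ₜ[ZMod 2] (x ⊗ₜ[ZMod 2] b)) = κ a ⊗ₜ[ZMod 2] (x ⊗ₜ[ZMod 2] κ b) := fun _ _ _ => rfl
  have hI : ∀ a x b, I (a ⊗ₜ[ZMod 2] (x ⊗ₜ[ZMod 2] b)) = κ a ⊗ₜ[ZMod 2] (x ⊗ₜ[ZMod 2] κ b) := fun _ _ _ => rfl
  have hP : ∀ a x b, P (a ⊗ₜ[ZMod 2] (x ⊗ₜ[ZMod 2] b)) = pr a ⊗ₜ[ZMod 2] (x ⊗ₜ[ZMod 2] pl b) := fun _ _ _ => rfl
  have e1 : mapX (Ser A Q) i ∘ₗ I' = I ∘ₗ mapX D i := MM_ext fun a x b => by
    rw [LinearMap.comp_apply, LinearMap.comp_apply, hI', mapX_tmul, mapX_tmul, hI]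
  have e2 : P ∘ₗ I' = LinearMap.id := MM_ext fun a x b => by
    rw [LinearMap.comp_apply, hI', hP, hpr1, hpl1, LinearMap.id_apply]
  have e3 : ∀ g, I ∘ₗ act jD ρ g = act (jJ p u) ρ g ∘ₗ I := fun g => MM_ext fun a x b => by
    rw [LinearMap.comp_apply, LinearMap.comp_apply, act_tmul, hI, hI, act_tmul, map_mul, map_mul, hκ, hκ]
  have e4 : ∀ g, P ∘ₗ act (jJ p u) ρ' g = act jD ρ' g ∘ₗ P := fun g => MM_ext fun a x b => by
    rw [LinearMap.comp_apply, LinearMap.comp_apply, act_tmul, hP, hP, act_tmul, ← hκ, ← hκ, hpr, hpl]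
  have h1 : ∀ z ∈ II jD ρ (⊤ : Subgroup J), I z ∈ II (jJ p u) ρ (⊤ : Subgroup J) := by
    have : II jD ρ (⊤ : Subgroup J) ≤ (II (jJ p u) ρ (⊤ : Subgroup J)).comap I := II_le jD ρ fun g hg z => by
      rw [Submodule.mem_comap, map_sub, show I (act jD ρ g z) = act (jJ p u) ρ g (I z) from LinearMap.congr_fun (e3 g) z]
      exact act_sub_mem _ ρ hg _
    exact this
  have h2 : ∀ z ∈ II (jJ p u) ρ' (⊤ : Subgroup J), P z ∈ II jD ρ' (⊤ : Subgroup J) := by
    have : II (jJ p u) ρ' (⊤ : Subgroup J) ≤ (II jD ρ' (⊤ : Subgroup J)).comap P := II_le _ ρ' fun g hg z => by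
      rw [Submodule.mem_comap, map_sub,
        show P (act (jJ p u) ρ' g z) = act jD ρ' g (P z) from LinearMap.congr_fun (e4 g) z]
      exact act_sub_mem _ ρ' hg _
    exact this
  have h3 : Psi p u ρ hp (mapX (Ser A Q) i (I' m)) = 0 := by
    rw [show mapX (Ser A Q) i (I' m) = I (mapX D i m) from LinearMap.congr_fun e1 m]
    exact Psi_II p u ρ hp (h1 _ hm)
  have h4 : Psi p u ρ' hp (I' m) = 0 := by
    funext d
    refine WWmap_injective p u ρ' ρ hflat i hinj hi ?_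
    rw [← Psi_map p u ρ' hp ρ i hi, h3]
    exact (map_zero _).symm
  obtain ⟨F, hF⟩ := exists_entries k m
  obtain ⟨Γ, _, _, φ, hφ, hfine, ⟨s, t, hts, hs, hsF⟩, s', t', hst, hs', hsF'⟩ := hfrac F
  have h5 : I' m ∈ II (jJ p u) ρ' (⊤ : Subgroup J) := by
    refine key p u hp φ ρ' hφ (F.image κ) ?_ hts hst hs hs' ?_ ?_ ?_ h4
    · intro a ha
      obtain ⟨d, hd, rfl⟩ := Finset.mem_image.1 ha
      exact hfine d hd
    · intro a ha
      obtain ⟨d, hd, rfl⟩ := Finset.mem_image.1 ha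
      exact hsF d hd
    · intro a ha
      obtain ⟨d, hd, rfl⟩ := Finset.mem_image.1 ha
      exact hsF' d hd
    · rw [Finset.coe_image]
      exact hF
  have h6 := h2 _ h5
  rwa [show P (I' m) = m from LinearMap.congr_fun e2 m] at h6

end

end Pool.Agent.TW.F
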