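import Pool.Agent.TW.F.OreA

/-!
# Project TW, flatness: common denominators for the elements of `D`

PROOF.  As in S12/DE.lean (`hfrac`): `exists_lfrac (lore φ hV hF)` is a subfield of `V` which contains `κ (jD h)` (`single_mem_SN`), so it contains `κ d` for
every `d ∈ Subfield.closure (Set.range jD)`; `common_left`, `common_right`.
-/

set_option autoImplicit false
set_option linter.unusedSectionVars false

open TensorProduct Pointwise

namespace Pool.Agent.TW.F

open Pool.Agent.S11 Pool.Agent.S11.FL Pool.Agent.S12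
open Pool.Agent.H58.MN (Ser)

section

variable {A : Type} [Ring A] {Q : Type} [Group Q] [BO Q] [Algebra (ZMod 2) A]
  {J : Type} [Group J] {p : J →* Q} {u : J →* A}
  {E : Type} [DivisionRing E] {kE : E →+* A}
  {V : Type} [DivisionRing V] {iV : V →+* Ser A Q}
  {Γ : Type} [Group Γ] (φ : Q →* Γ)
  {D : Type} [DivisionRing D] (κ : D →+* V) (jD : J →* D)

/-- the generators are in the ring of the series which meet finitely many fibres -/
private theorem gen_mem (hκ : ∀ h, iV (κ (jD h)) = jJ p u h) (h : J) :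
    κ (jD h) ∈ ((SN φ : Subring (Ser A Q)).comap iV) := by
  rw [Subring.mem_comap, hκ, jJ_apply]
  exact single_mem_SN φ _ _

/-- a subfield which contains the generators contains the image of `D` -/
private theorem map_mem (hgen : ∀ d, d ∈ Subfield.closure (Set.range jD)) (L : Subfield V)
    (hL : ∀ h, κ (jD h) ∈ L) (d : D) : κ d ∈ L := by
  have h1 : Subfield.closure (Set.range jD) ≤ L.comap κ := by
    refine Subfield.closure_le.2 ?_
    rintro _ ⟨h, rfl⟩
    exact hL h
  exact h1 (hgen d)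

theorem frac_left (hV : IsV p u kE iV) (hF : Fol φ.range) (hκ : ∀ h, iV (κ (jD h)) = jJ p u h)
    (hgen : ∀ d, d ∈ Subfield.closure (Set.range jD)) (F : Finset D) :
    ∃ s : V, s ≠ 0 ∧ iV s ∈ SN φ ∧ ∀ a ∈ F, iV (s * κ a) ∈ SN φ := by
  classical
  obtain ⟨L, hL⟩ := exists_lfrac (lore φ hV hF)
  have hLg : ∀ h, κ (jD h) ∈ L := fun h => (hL _).2 ⟨1, Subring.one_mem _, one_ne_zero, by
    rw [one_mul]
    exact gen_mem φ κ jD hκ h⟩
  obtain ⟨s, hs, hs0, hsF⟩ := common_left (lore φ hV hF) (F.image κ) fun a ha => by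
    obtain ⟨d, _, rfl⟩ := Finset.mem_image.1 ha
    exact (hL _).1 (map_mem κ jD hgen L hLg d)
  exact ⟨s, hs0, hs, fun a ha => hsF _ (Finset.mem_image_of_mem _ ha)⟩

theorem frac_right (hV : IsV p u kE iV) (hF : Fol φ.range) (hκ : ∀ h, iV (κ (jD h)) = jJ p u h)
    (hgen : ∀ d, d ∈ Subfield.closure (Set.range jD)) (F : Finset D) :
    ∃ s : V, s ≠ 0 ∧ iV s ∈ SN φ ∧ ∀ a ∈ F, iV (κ a * s) ∈ SN φ := by
  classical
  obtain ⟨R, hR⟩ := exists_rfrac (rore φ hV hF)
  have hRg : ∀ h, κ (jD h) ∈ R := fun h => (hR _).2 ⟨1, Subring.one_mem _, one_ne_zero, by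
    rw [mul_one]
    exact gen_mem φ κ jD hκ h⟩
  obtain ⟨s, hs, hs0, hsF⟩ := common_right (rore φ hV hF) (F.image κ) fun a ha => by
    obtain ⟨d, _, rfl⟩ := Finset.mem_image.1 ha
    exact (hR _).1 (map_mem κ jD hgen R hRg d)
  exact ⟨s, hs0, hs, fun a ha => hsF _ (Finset.mem_image_of_mem _ ha)⟩

end

end Pool.Agent.TW.F
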