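import Pool.Agent.TW.Defs
import Pool.Agent.TW.SG
import Pool.Agent.TW.DC
import Pool.Agent.TW.F.FlatA
import Pool.Agent.TW.F.FlatD
import Pool.Agent.TW.F.Frac

/-!
# Project TW, flatness: the step

`E₀` = the division ring of the kernel (flat over `N₁`, `s : N₁ →* J` onto `ker p`), `D` = the division closure of `u(J)`, a division ring,
embedded by `ι` in the series, with values in the components `E₀ u` and finite fibres over the `Γ j` for large `j`.
Then `X ↦ D ⊗ X ⊗ D` modulo the action of `J` preserves injections.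
-/

set_option autoImplicit false
set_option linter.unusedSectionVars false

open TensorProduct

namespace Pool.Agent.TW

open Pool.Agent.S11 Pool.Agent.S11.FL Pool.Agent.S12
open Pool.Agent.H58.MN (Ser)

private theorem monotone_of_pos {Q Γ : Type} [Group Q] [BO Q] [Group Γ] [BO Γ] (f : Q →* Γ)
    (h : ∀ x, 1 < x → 1 ≤ f x) : Monotone f := by
  intro x y hxy
  rcases hxy.lt_or_eq with h1 | h1
  · have h2 := mul_lt_l h1 x⁻¹
    rw [inv_mul_cancel] at h2
    have h3 := mul_le_l (h _ h2) (f x)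
    rw [mul_one, ← map_mul, mul_inv_cancel_left] at h3
    exact h3
  · rw [h1]

section

variable {J Q E : Type} [Group J] [Group Q] [BO Q] [Ring E] [Algebra (ZMod 2) E]
    {u : J →* E} {p : J →* Q} {E₀ : Subalgebra (ZMod 2) E}

/-- the series with values in the components -/
def VS (hK : KerH E₀ u p) : Subring (Ser E Q) where
  carrier := {v | Gp E₀ u p v}
  mul_mem' := gp_mul hK
  one_mem' := gp_one hK
  add_mem' := gp_add
  zero_mem' := gp_zero
  neg_mem' := gp_neg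

theorem VS_unit (hK : KerH E₀ u p) (v : ↥(VS hK)) : IsUnit v ∨ v = 0 := by
  by_cases h : v = 0
  · exact Or.inr h
  · obtain ⟨w, hw, h1, h2, -⟩ := exists_inv hK v.2 fun h0 => h (Subtype.ext h0)
    exact Or.inl ⟨⟨v, ⟨w, hw⟩, Subtype.ext h1, Subtype.ext h2⟩, rfl⟩

theorem unit_of_DivA {D : Subalgebra (ZMod 2) E} (hD : DivA D) (d : ↥D) : IsUnit d ∨ d = 0 := by
  by_cases h : d = 0
  · exact Or.inr h
  · obtain ⟨b, hb, h1, h2⟩ := hD d.1 d.2 fun h0 => h (Subtype.ext h0)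
    exact Or.inl ⟨⟨d, ⟨b, hb⟩, Subtype.ext h1, Subtype.ext h2⟩, rfl⟩

end

/-- **Flatness, the step** -/
theorem flat_step {J Q E : Type} [Group J] [Group Q] [BO Q] [Ring E] [Algebra (ZMod 2) E]
    {u : J →* E} {p : J →* Q} {E₀ : Subalgebra (ZMod 2) E} (hK : KerH E₀ u p)
    {N₁ : Type} [Group N₁] (s : N₁ →* J) (hs : s.range = p.ker) (w₀ : N₁ →* ↥E₀) (hw₀ : ∀ n, (w₀ n : E) = u (s n))
    (h₀ : FlatOn.{0} (K := ZMod 2) w₀ (⊤ : Subgroup N₁))
    {Γ : ℕ → Type} [∀ j, Group (Γ j)] [∀ j, BO (Γ j)] {q : ∀ j, Q →* Γ j} (hA : Apx q) (hF : ∀ j, Fol (q j).range)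
    {D : Subalgebra (ZMod 2) E} (hD : D = dcl (Set.range u)) (hDiv : DivA D) (w : J →* ↥D) (hw : ∀ h, (w h : E) = u h)
    (ι : ↥D →+* Ser E Q) (hG : ∀ d, Gp E₀ u p (ι d)) (hfine : ∀ d, ∃ j0, ∀ j, j0 ≤ j → Fn (q j) (ι d))
    (hι : ∀ h, ι (w h) = Ser.single (p h) (u h)) :
    FlatOn.{0} (K := ZMod 2) w (⊤ : Subgroup J) := by
  classical
  rcases subsingleton_or_nontrivial E with hE | hE
  · -- the trivial ring
    intro X' X _ _ _ _ ρ' ρ i _ _ m _
    have h0 : ∀ m : MM (ZMod 2) ↥D X', m = 0 := by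
      intro m
      induction m using TensorProduct.induction_on with
      | zero => rfl
      | add a b ha hb => rw [ha, hb, add_zero]
      | tmul a t => rw [Subsingleton.elim a 0, TensorProduct.zero_tmul]
    rw [h0 m]
    exact Submodule.zero_mem _
  have hntS : Nontrivial (Ser E Q) := by
    refine ⟨⟨0, 1, fun h => ?_⟩⟩
    have h1 : (0 : Ser E Q) 1 = (1 : Ser E Q) 1 := by rw [h]
    rw [Ser.one_def, Ser.single_self] at h1
    exact zero_ne_one h1
  haveI hntD : Nontrivial ↥D := ⟨⟨0, 1, fun h => zero_ne_one (α := E) (congrArg Subtype.val h)⟩⟩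
  haveI hntE : Nontrivial ↥E₀ := ⟨⟨0, 1, fun h => zero_ne_one (α := E) (congrArg Subtype.val h)⟩⟩
  haveI hntV : Nontrivial ↥(VS hK) := ⟨⟨0, 1, fun h => zero_ne_one (α := Ser E Q) (congrArg Subtype.val h)⟩⟩
  have hDu := unit_of_DivA hDiv
  -- flatness over the kernel
  have hflat : FlatOn.{0} (K := ZMod 2) u p.ker := by
    letI : DivisionRing ↥E₀ := DivisionRing.ofIsUnitOrEqZero (unit_of_DivA hK.div)
    exact F.flatOn_of_sub u p.ker s hs (E₀.val : ↥E₀ →+* E) w₀ hw₀ h₀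
  refine F.flatOn_of_frac p u hDu hK.surj hflat ι w hι fun S => ?_
  -- the level
  obtain ⟨j, hj⟩ : ∃ j, ∀ d ∈ S, Fn (q j) (ι d) := by
    choose j0 hj0 using hfine
    exact ⟨S.sup j0, fun d hd => hj0 d _ (Finset.le_sup hd)⟩
  refine ⟨Γ j, inferInstance, inferInstance, q j, monotone_of_pos (q j) (hA.pos j), hj, ?_⟩
  -- the division ring of the series
  letI : DivisionRing ↥(VS hK) := DivisionRing.ofIsUnitOrEqZero (VS_unit hK)
  letI : DivisionRing ↥E₀ := DivisionRing.ofIsUnitOrEqZero (unit_of_DivA hK.div)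
  letI : DivisionRing ↥D := DivisionRing.ofIsUnitOrEqZero hDu
  have hV : F.IsV p u (E₀.val : ↥E₀ →+* E) (VS hK).subtype := by
    refine ⟨hK.surj, fun n hn => ⟨⟨u n, hK.mem n hn⟩, rfl⟩, fun h e => ⟨⟨_, hK.conj h e e.2⟩, rfl⟩, fun f => ?_,
      Subtype.val_injective⟩
    constructor
    · rintro ⟨v, rfl⟩ h
      exact ⟨⟨_, v.2 h⟩, rfl⟩
    · intro h
      refine ⟨⟨f, fun k => ?_⟩, rfl⟩
      obtain ⟨e, he⟩ := h k
      rw [← he]
      exact e.2
  let κ : ↥D →+* ↥(VS hK) := ι.codRestrict (VS hK) hG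
  have hκ : ∀ h, (VS hK).subtype (κ (w h)) = F.jJ p u h := hι
  have hgen : ∀ d, d ∈ Subfield.closure (Set.range w) := by
    intro d
    let C : Subfield ↥D := Subfield.closure (Set.range w)
    have h1 : ∀ a ∈ dcl (Set.range u), a ∈ C.toSubring.map (D.val : ↥D →+* E) := by
      refine dcl_le_ring _ ?_ ?_
      · rintro _ ⟨h, rfl⟩
        exact ⟨w h, Subfield.subset_closure ⟨h, rfl⟩, hw h⟩
      · rintro _ ⟨c, hc, rfl⟩ b hb1 hb2
        have hc0 : c ≠ 0 := by
          rintro rfl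
          rw [map_zero, zero_mul] at hb1
          exact zero_ne_one hb1
        refine ⟨c⁻¹, C.inv_mem hc, ?_⟩
        have h2 : (D.val : ↥D →+* E) c * (D.val : ↥D →+* E) c⁻¹ = 1 := by
          rw [← map_mul, mul_inv_cancel₀ hc0, map_one]
        calc (D.val : ↥D →+* E) c⁻¹ = (b * (D.val : ↥D →+* E) c) * (D.val : ↥D →+* E) c⁻¹ := by rw [hb2, one_mul]
          _ = b := by rw [mul_assoc, h2, mul_one]
    obtain ⟨c, hc, hcd⟩ := h1 d.1 (hD ▸ d.2)
    have : c = d := Subtype.ext hcd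
    rw [← this]
    exact hc
  obtain ⟨a, ha0, ha, haS⟩ := F.frac_left (q j) κ w hV (hF j) hκ hgen S
  obtain ⟨b, hb0, hb, hbS⟩ := F.frac_right (q j) κ w hV (hF j) hκ hgen S
  refine ⟨⟨(VS hK).subtype a, (VS hK).subtype a⁻¹, ?_, ha, fun d hd => haS d hd⟩,
    (VS hK).subtype b, (VS hK).subtype b⁻¹, ?_, hb, fun d hd => hbS d hd⟩
  · rw [← map_mul, inv_mul_cancel₀ ha0, map_one]
  · rw [← map_mul, mul_inv_cancel₀ hb0, map_one]

end Pool.Agent.TW
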