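import Pool.Agent.TW.F.PdII

/-!
# Project TW, flatness: the elements with denominators and entries with finite fibres on which `Psi` vanishes
-/

set_option autoImplicit false
set_option linter.unusedSectionVars false

open TensorProduct

namespace Pool.Agent.TW.F

open Pool.Agent.S11 Pool.Agent.S11.FL
open Pool.Agent.H58.MN (Ser)

section

variable {A : Type} [Ring A] {Q : Type} [Group Q] [BO Q] [Algebra (ZMod 2) A]
  {J : Type} [Group J] (p : J →* Q) (u : J →* A) (hp : Function.Surjective p)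
  {Γ : Type} [Group Γ] (φ : Q →* Γ) {X : Type} [AddCommGroup X] [Module (ZMod 2) X]
  (ρ : Representation (ZMod 2) J X)

/-- **The key theorem** -/
theorem key [BO Γ] (hφ : Monotone φ) (F : Finset (Ser A Q)) (hF : ∀ a ∈ F, Fine φ a)
    {s s' t t' : Ser A Q} (hts : t * s = 1) (hst : s' * t' = 1) (hs : s ∈ SN φ) (hs' : s' ∈ SN φ)
    (h1 : ∀ a ∈ F, s * a ∈ SN φ) (h2 : ∀ b ∈ F, b * s' ∈ SN φ) {m : MM (ZMod 2) (Ser A Q) X}
    (hm : m ∈ TT X (F : Set (Ser A Q))) (h0 : Psi p u ρ hp m = 0) : m ∈ II (jJ p u) ρ (⊤ : Subgroup J) := by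
  classical
  have hx : Lm s (Rm s' m) ∈ II (jJ p u) ρ (⊤ : Subgroup J) := by
    -- the degrees
    let M : Finset Γ := F.attach.biUnion fun a => (h1 a.1 a.2 : (cos φ (s * a.1)).Finite).toFinset
    let M' : Finset Γ := F.attach.biUnion fun b => (h2 b.1 b.2 : (cos φ (b.1 * s')).Finite).toFinset
    have hM : ∀ a ∈ F, cos φ (s * a) ⊆ M := fun a ha α hα =>
      Finset.mem_coe.2 (Finset.mem_biUnion.2 ⟨⟨a, ha⟩, Finset.mem_attach _ _, (Set.Finite.mem_toFinset _).2 hα⟩)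
    have hM' : ∀ b ∈ F, cos φ (b * s') ⊆ M' := fun b hb α hα =>
      Finset.mem_coe.2 (Finset.mem_biUnion.2 ⟨⟨b, hb⟩, Finset.mem_attach _ _, (Set.Finite.mem_toFinset _).2 hα⟩)
    have hTS : Lm s (Rm s' m) ∈ TS φ X M M' := by
      have : TT X (F : Set (Ser A Q)) ≤ (TS φ X M M').comap (Lm s ∘ₗ Rm s') := by
        refine Submodule.span_le.2 ?_
        rintro _ ⟨a, x, b, ha, hb, rfl⟩
        refine Submodule.subset_span ⟨s * a, x, b * s', hM a ha, hM' b hb, ?_⟩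
        rw [LinearMap.comp_apply, Rm_tmul, Lm_tmul]
      exact this hm
    refine mem_of_Pd φ hφ hTS _ fun γ => ?_
    have hsM : cos φ s ⊆ (hs : (cos φ s).Finite).toFinset := fun α hα =>
      Finset.mem_coe.2 ((Set.Finite.mem_toFinset _).2 hα)
    have hsM' : cos φ s' ⊆ (hs' : (cos φ s').Finite).toFinset := fun α hα =>
      Finset.mem_coe.2 ((Set.Finite.mem_toFinset _).2 hα)
    rw [Pd_Lm φ hφ _ s hsM]
    refine Submodule.sum_mem _ fun μ _ => Lm_II _ ρ ⊤ _ ?_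
    rw [Pd_Rm φ hφ _ s' hsM']
    exact Submodule.sum_mem _ fun ν _ => Rm_II _ ρ ⊤ _ (Pd_II p u hp φ ρ hφ hF hm h0 _)
  have h3 := Rm_II _ ρ ⊤ t' (Lm_II _ ρ ⊤ t hx)
  rw [Lm_Lm, hts, Lm_one, Rm_Rm, hst, Rm_one] at h3
  exact h3

end

end Pool.Agent.TW.F
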