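import Pool.Agent.TW.F.OreDefs

/-!
# Project TW, flatness: the Ore conditions for the elements of `V` over finitely many fibres

PROOF.  As in S12/OreSN.lean (and S12/OreR.lean), with `MN H` replaced by `V` (elements are in `Ser A Q` through `iV`), `H ⧸ N` by `φ.range`, `MN.g x` by
`jV h : V` with `iV (jV h) = jJ p u h` (it is in the range: `u h * u k⁻¹ = u (h * k⁻¹)` is in the range of `kE` if `p h = p k`).  A component `pr φ γ (iV v)` is in the
range of `iV` (`mem_iff`).  `DN` = the elements of `V` supported in `ker φ`: a `Subfield V` (inverse: `v * w = 1`, `pr_mul_of_left φ` with `μ = 1` gives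
`v * pr φ γ w = pr φ γ 1 = 0` for `γ ≠ 1`).  For `γ ∈ φ.range` choose `h γ : J` with `φ (p (h γ)) = γ`; `pr φ γ s = d * jJ (h γ)` with `d ∈ DN`
(`d = pr φ γ s * jJ (h γ)⁻¹`), and `= jJ (h γ) * d'`.  If `γ ∉ φ.range` then `pr φ γ f = 0`.  Then the linear systems over `DN` (`exists_left`, `exists_right`).
-/

set_option autoImplicit false
set_option linter.unusedSectionVars false

open TensorProduct Pointwise

namespace Pool.Agent.TW.F

open Pool.Agent.S11 Pool.Agent.S11.FL Pool.Agent.S12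
open Pool.Agent.H58.MN (Ser)

section

variable {A : Type} [Ring A] {Q : Type} [Group Q] [BO Q] [Algebra (ZMod 2) A]
  {J : Type} [Group J] {p : J →* Q} {u : J →* A}
  {E : Type} [DivisionRing E] {kE : E →+* A}
  {V : Type} [DivisionRing V] {iV : V →+* Ser A Q}
  {Γ : Type} [Group Γ] (φ : Q →* Γ)

/-- the elements of `V` supported over `μ` -/
private def Sup (iV : V →+* Ser A Q) (φ : Q →* Γ) (μ : Γ) (v : V) : Prop := ∀ x, iV v x ≠ 0 → φ x = μ

private theorem one_supp {x : Q} (h : (1 : Ser A Q) x ≠ 0) : x = 1 := by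
  by_contra h0
  exact h (Ser.single_ne h0 1)

open Classical in
private theorem pr_of_supp {μ : Γ} {f : Ser A Q} (hf : ∀ x, f x ≠ 0 → φ x = μ) (α : Γ) : pr φ α f = if α = μ then f else 0 := by
  ext x
  by_cases hx : φ x = α
  · rw [pr_c φ _ _ _ hx]
    split_ifs with h
    · rfl
    · by_contra h0
      exact h (hx.symm.trans (hf x h0))
  · rw [pr_c_ne φ _ _ _ hx]
    split_ifs with h
    · by_contra h0
      exact hx ((hf x fun h1 => h0 h1.symm).trans h.symm)
    · rfl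

private theorem jJ_supp {h : J} {x : Q} (hx : jJ p u h x ≠ 0) : x = p h := by
  by_contra h0
  exact hx (Ser.single_ne h0 _)

private theorem jJ_supp' {h : J} (x : Q) (hx : jJ p u h x ≠ 0) : φ x = φ (p h) := by rw [jJ_supp hx]

private theorem jJ_mem (hV : IsV p u kE iV) (h : J) : jJ p u h ∈ iV.range := by
  rw [hV.mem_iff]
  intro k
  by_cases hk : p k = p h
  · rw [jJ_apply, hk, Ser.single_self, ← map_mul]
    apply hV.ker_mem
    rw [MonoidHom.mem_ker, map_mul, map_inv, hk, mul_inv_cancel]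
  · rw [jJ_apply, Ser.single_ne hk, zero_mul]
    exact kE.range.zero_mem

private theorem pr_mem (hV : IsV p u kE iV) (γ : Γ) (v : V) : pr φ γ (iV v) ∈ iV.range := by
  rw [hV.mem_iff]
  intro h
  by_cases hh : φ (p h) = γ
  · rw [pr_c φ _ _ _ hh]
    exact (hV.mem_iff _).1 ⟨v, rfl⟩ h
  · rw [pr_c_ne φ _ _ _ hh, zero_mul]
    exact kE.range.zero_mem

/-- the elements supported in the kernel -/
private def DV (hV : IsV p u kE iV) : Subfield V where
  carrier := {v | Sup iV φ 1 v}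
  mul_mem' := by
    intro a b ha hb x hx
    rw [map_mul] at hx
    obtain ⟨y, hy, z, hz, rfl⟩ := Set.mem_mul.1 (Ser.support_mul _ _ hx)
    rw [map_mul, ha y hy, hb z hz, one_mul]
  one_mem' := by
    intro x hx
    rw [map_one] at hx
    rw [one_supp hx, map_one]
  add_mem' := by
    intro a b ha hb x hx
    by_cases h : iV a x = 0
    · refine hb x fun h' => hx ?_
      rw [map_add, Ser.add_apply, h, h', add_zero]
    · exact ha x h
  zero_mem' := by
    intro x hx
    rw [map_zero] at hx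
    exact absurd (Ser.zero_apply x) hx
  neg_mem' := by
    intro a ha x hx
    refine ha x fun h => hx ?_
    rw [map_neg, Ser.neg_apply, h, neg_zero]
  inv_mem' := by
    intro a ha x hx
    by_cases h0 : a = 0
    · rw [h0, inv_zero, map_zero] at hx
      exact absurd (Ser.zero_apply x) hx
    by_contra hne
    obtain ⟨w, hw⟩ := pr_mem φ hV (φ x) a⁻¹
    have h1 := pr_mul_of_left φ ha (φ x) (iV a⁻¹)
    rw [← map_mul, mul_inv_cancel₀ h0, map_one, inv_one, one_mul, ← hw, ← map_mul,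
      pr_of_supp φ (μ := 1) (fun y hy => by rw [one_supp hy, map_one]), if_neg hne] at h1
    have h2 : a * w = 0 := hV.inj (by rw [← h1, map_zero])
    have h3 : w = 0 := (mul_eq_zero.1 h2).resolve_left h0
    rw [h3, map_zero] at hw
    apply hx
    rw [← pr_c φ (φ x) (iV a⁻¹) x rfl, ← hw]
    rfl

private theorem mem_DV {hV : IsV p u kE iV} {v : V} : v ∈ DV φ hV ↔ Sup iV φ 1 v := Iff.rfl

private theorem DV_mem_SN {hV : IsV p u kE iV} {v : V} (hv : v ∈ DV φ hV) : v ∈ (SN φ).comap iV := by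
  rw [Subring.mem_comap, mem_SN]
  refine (Set.finite_singleton (1 : Γ)).subset ?_
  rintro _ ⟨x, hx, rfl⟩
  exact hv x hx

private theorem jJ_mem_SN {g : V} {h : J} (hg : iV g = jJ p u h) : g ∈ (SN φ).comap iV := by
  rw [Subring.mem_comap, hg, jJ_apply]
  exact single_mem_SN φ _ _

private theorem ne_zero_of_jJ (hV : IsV p u kE iV) {g : V} {h : J} (hg : iV g = jJ p u h) : g ≠ 0 := by
  intro h0
  rw [h0, map_zero] at hg
  have h1 : jJ p u h * jJ p u h⁻¹ = 1 := by rw [← map_mul, mul_inv_cancel, map_one]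
  rw [← hg, zero_mul] at h1
  have h2 : (0 : V) = 1 := hV.inj (by rw [map_zero, map_one, h1])
  exact zero_ne_one h2

/-- `w = d g`, `d` over the kernel -/
private theorem exists_co_left (hV : IsV p u kE iV) (h : J) (w : V) :
    ∃ d : DV φ hV, pr φ (φ (p h)) (iV w) = iV d * jJ p u h := by
  obtain ⟨w', hw'⟩ := pr_mem φ hV (φ (p h)) w
  obtain ⟨g', hg'⟩ := jJ_mem hV h⁻¹
  refine ⟨⟨w' * g', ?_⟩, ?_⟩
  · rw [mem_DV]
    intro x hx
    rw [map_mul, hg', hw'] at hx
    obtain ⟨y, hy, z, hz, rfl⟩ := Set.mem_mul.1 (Ser.support_mul _ _ hx)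
    rw [map_mul, supp_pr φ hy, jJ_supp hz, map_inv, map_inv, mul_inv_cancel]
  · show _ = iV (w' * g') * jJ p u h
    rw [map_mul, hg', mul_assoc, ← map_mul, inv_mul_cancel, map_one, mul_one, hw']

/-- `w = g d`, `d` over the kernel -/
private theorem exists_co_right (hV : IsV p u kE iV) (h : J) (w : V) :
    ∃ d : DV φ hV, pr φ (φ (p h)) (iV w) = jJ p u h * iV d := by
  obtain ⟨w', hw'⟩ := pr_mem φ hV (φ (p h)) w
  obtain ⟨g', hg'⟩ := jJ_mem hV h⁻¹
  refine ⟨⟨g' * w', ?_⟩, ?_⟩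
  · rw [mem_DV]
    intro x hx
    rw [map_mul, hg', hw'] at hx
    obtain ⟨y, hy, z, hz, rfl⟩ := Set.mem_mul.1 (Ser.support_mul _ _ hx)
    rw [map_mul, supp_pr φ hz, jJ_supp hy, map_inv, map_inv, inv_mul_cancel]
  · show _ = jJ p u h * iV (g' * w')
    rw [map_mul, hg', ← mul_assoc, ← map_mul, mul_inv_cancel, map_one, one_mul, hw']

private theorem exists_rep (hV : IsV p u kE iV) : ∃ rp : φ.range → J, ∀ γ, φ (p (rp γ)) = γ.1 := by
  choose q hq using fun γ : φ.range => γ.2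
  choose h hh using fun γ : φ.range => hV.surj (q γ)
  exact ⟨h, fun γ => by rw [hh, hq]⟩

private theorem fin_C {y t : V} (hy : y ∈ (SN φ).comap iV) (ht : t ∈ (SN φ).comap iV) :
    {γ : φ.range | γ.1 ∈ cos φ (iV y) ∪ cos φ (iV t)}.Finite :=
  Set.Finite.preimage Subtype.val_injective.injOn (Set.Finite.union hy ht)

theorem lore (hV : IsV p u kE iV) (hF : Fol φ.range) : LOre ((SN φ).comap iV) := by
  classical
  intro y hy t ht ht0
  obtain ⟨rp, hrp⟩ := exists_rep φ hV
  choose gV hgV using fun h : J => jJ_mem hV h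
  have hC := fin_C φ hy ht
  obtain ⟨F, G, hFG, hcard⟩ := hF hC.toFinset
  have hz : ∀ w : V, cos φ (iV w) ⊆ cos φ (iV y) ∪ cos φ (iV t) → ∀ f ∈ F, ∀ γ : Γ, (∀ g ∈ G, g.1 ≠ γ) →
      pr φ γ (jJ p u (rp f) * iV w) = 0 := by
    intro w hw f hf γ hγ
    refine pr_eq_zero φ fun h1 => ?_
    obtain ⟨f', hf', c, hc, rfl⟩ := Set.mem_mul.1 (cos_mul φ _ _ h1)
    obtain ⟨x, hx, rfl⟩ := hf'
    obtain ⟨z, hz, rfl⟩ := hc
    refine hγ (f * ⟨φ z, ⟨z, rfl⟩⟩) (hFG f hf _ (hC.mem_toFinset.2 (hw ⟨z, hz, rfl⟩))) ?_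
    rw [Subgroup.coe_mul, jJ_supp' φ x hx, hrp]
  have hex : ∀ (w : V) (f γ : φ.range), ∃ d : DV φ hV, pr φ γ.1 (jJ p u (rp f) * iV w) = iV d * jJ p u (rp γ) := by
    intro w f γ
    obtain ⟨d, hd⟩ := exists_co_left φ hV (rp γ) (gV (rp f) * w)
    rw [hrp, map_mul, hgV] at hd
    exact ⟨d, hd⟩
  choose a ha using hex
  obtain ⟨v, hv0, hv⟩ := exists_left (D := DV φ hV) (m := F ⊕ F) (n := G)
    (fun i j => Sum.elim (fun f : F => a y f.1 j.1) (fun f : F => - a t f.1 j.1) i)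
    (by rw [Fintype.card_sum, Fintype.card_coe, Fintype.card_coe]; omega)
  have hcomb : ∀ (w : V) (q : F → DV φ hV) (γ : Γ),
      pr φ γ (iV ((∑ f : F, (q f : V) * gV (rp f.1)) * w)) = ∑ f : F, iV (q f) * pr φ γ (jJ p u (rp f.1) * iV w) := by
    intro w q γ
    rw [Finset.sum_mul, map_sum, map_sum]
    refine Finset.sum_congr rfl fun f _ => ?_
    rw [mul_assoc, map_mul, pr_mul_of_left φ (q f).2, inv_one, one_mul, map_mul, hgV]
  have hzero : ∀ q : F → DV φ hV, (∑ f : F, (q f : V) * gV (rp f.1)) = 0 → ∀ f, q f = 0 := by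
    intro q hq f
    have h1 := hcomb 1 q f.1.1
    rw [hq, zero_mul, map_zero, map_zero, Finset.sum_eq_single f] at h1
    · rw [map_one, mul_one, pr_of_supp φ (jJ_supp' φ), if_pos (hrp f.1).symm, ← hgV, ← map_mul] at h1
      have h2 : (q f : V) * gV (rp f.1) = 0 := hV.inj (by rw [map_zero, ← h1])
      exact Subtype.ext ((mul_eq_zero.1 h2).resolve_right (ne_zero_of_jJ hV (hgV _)))
    · intro f' _ hf'
      rw [map_one, mul_one, pr_of_supp φ (jJ_supp' φ), if_neg, mul_zero]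
      intro h2
      rw [hrp] at h2
      exact hf' (Subtype.ext (Subtype.ext h2.symm))
    · intro h2
      exact absurd (Finset.mem_univ f) h2
  have hmem : ∀ q : F → DV φ hV, (∑ f : F, (q f : V) * gV (rp f.1)) ∈ (SN φ).comap iV := fun q =>
    Subring.sum_mem _ fun f _ => Subring.mul_mem _ (DV_mem_SN φ (q f).2) (jJ_mem_SN φ (hgV _))
  have heq : (∑ f : F, (v (Sum.inl f) : V) * gV (rp f.1)) * y = (∑ f : F, (v (Sum.inr f) : V) * gV (rp f.1)) * t := by
    apply hV.inj
    rw [← sub_eq_zero]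
    refine eq_zero_of_pr φ fun γ => ?_
    rw [map_sub, hcomb y fun f => v (Sum.inl f), hcomb t fun f => v (Sum.inr f)]
    by_cases hγ : ∃ g ∈ G, g.1 = γ
    · obtain ⟨g, hg, rfl⟩ := hγ
      have h1 := hv ⟨g, hg⟩
      rw [Fintype.sum_sum_type] at h1
      have h2 := congrArg (fun d : DV φ hV => iV (d : V) * jJ p u (rp g)) h1
      simp only [Sum.elim_inl, Sum.elim_inr, mul_neg, Finset.sum_neg_distrib, ← sub_eq_add_neg, AddSubgroupClass.coe_sub,
        ZeroMemClass.coe_zero, map_zero, zero_mul, map_sub, sub_mul, AddSubmonoidClass.coe_finsetSum, map_sum,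
        MulMemClass.coe_mul, map_mul, Finset.sum_mul, mul_assoc] at h2
      rw [← h2]
      simp only [ha]
    · push Not at hγ
      rw [Finset.sum_eq_zero fun f _ => ?_, Finset.sum_eq_zero fun f _ => ?_, sub_zero]
      · rw [hz t Set.subset_union_right f.1 f.2 γ hγ, mul_zero]
      · rw [hz y Set.subset_union_left f.1 f.2 γ hγ, mul_zero]
  refine ⟨_, hmem fun f => v (Sum.inl f), _, hmem fun f => v (Sum.inr f), fun hp0 => hv0 ?_, heq⟩
  rw [hp0, zero_mul] at heq
  have hr0 := (mul_eq_zero.1 heq.symm).resolve_right ht0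
  funext i
  rcases i with f | f
  · exact hzero (fun f => v (Sum.inl f)) hp0 f
  · exact hzero (fun f => v (Sum.inr f)) hr0 f

theorem rore (hV : IsV p u kE iV) (hF : Fol φ.range) : ROre ((SN φ).comap iV) := by
  classical
  intro y hy t ht ht0
  obtain ⟨rp, hrp⟩ := exists_rep φ hV
  choose gV hgV using fun h : J => jJ_mem hV h
  have hC := fin_C φ hy ht
  obtain ⟨F, G, hFG, hcard⟩ := hF.left hC.toFinset
  have hz : ∀ w : V, cos φ (iV w) ⊆ cos φ (iV y) ∪ cos φ (iV t) → ∀ f ∈ F, ∀ γ : Γ, (∀ g ∈ G, g.1 ≠ γ) →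
      pr φ γ (iV w * jJ p u (rp f)) = 0 := by
    intro w hw f hf γ hγ
    refine pr_eq_zero φ fun h1 => ?_
    obtain ⟨c, hc, f', hf', rfl⟩ := Set.mem_mul.1 (cos_mul φ _ _ h1)
    obtain ⟨x, hx, rfl⟩ := hf'
    obtain ⟨z, hz, rfl⟩ := hc
    refine hγ (⟨φ z, ⟨z, rfl⟩⟩ * f) (hFG f hf _ (hC.mem_toFinset.2 (hw ⟨z, hz, rfl⟩))) ?_
    rw [Subgroup.coe_mul, jJ_supp' φ x hx, hrp]
  have hex : ∀ (w : V) (f γ : φ.range), ∃ d : DV φ hV, pr φ γ.1 (iV w * jJ p u (rp f)) = jJ p u (rp γ) * iV d := by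
    intro w f γ
    obtain ⟨d, hd⟩ := exists_co_right φ hV (rp γ) (w * gV (rp f))
    rw [hrp, map_mul, hgV] at hd
    exact ⟨d, hd⟩
  choose a ha using hex
  obtain ⟨v, hv0, hv⟩ := exists_right (D := DV φ hV) (m := F ⊕ F) (n := G)
    (fun i j => Sum.elim (fun f : F => a y f.1 j.1) (fun f : F => - a t f.1 j.1) i)
    (by rw [Fintype.card_sum, Fintype.card_coe, Fintype.card_coe]; omega)
  have hcomb : ∀ (w : V) (q : F → DV φ hV) (γ : Γ),
      pr φ γ (iV (w * ∑ f : F, gV (rp f.1) * (q f : V))) = ∑ f : F, pr φ γ (iV w * jJ p u (rp f.1)) * iV (q f) := by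
    intro w q γ
    rw [Finset.mul_sum, map_sum, map_sum]
    refine Finset.sum_congr rfl fun f _ => ?_
    rw [← mul_assoc, map_mul, pr_mul_of_right φ (q f).2, inv_one, mul_one, map_mul, hgV]
  have hzero : ∀ q : F → DV φ hV, (∑ f : F, gV (rp f.1) * (q f : V)) = 0 → ∀ f, q f = 0 := by
    intro q hq f
    have h1 := hcomb 1 q f.1.1
    rw [hq, mul_zero, map_zero, map_zero, Finset.sum_eq_single f] at h1
    · rw [map_one, one_mul, pr_of_supp φ (jJ_supp' φ), if_pos (hrp f.1).symm, ← hgV, ← map_mul] at h1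
      have h2 : gV (rp f.1) * (q f : V) = 0 := hV.inj (by rw [map_zero, ← h1])
      exact Subtype.ext ((mul_eq_zero.1 h2).resolve_left (ne_zero_of_jJ hV (hgV _)))
    · intro f' _ hf'
      rw [map_one, one_mul, pr_of_supp φ (jJ_supp' φ), if_neg, zero_mul]
      intro h2
      rw [hrp] at h2
      exact hf' (Subtype.ext (Subtype.ext h2.symm))
    · intro h2
      exact absurd (Finset.mem_univ f) h2
  have hmem : ∀ q : F → DV φ hV, (∑ f : F, gV (rp f.1) * (q f : V)) ∈ (SN φ).comap iV := fun q =>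
    Subring.sum_mem _ fun f _ => Subring.mul_mem _ (jJ_mem_SN φ (hgV _)) (DV_mem_SN φ (q f).2)
  have heq : y * (∑ f : F, gV (rp f.1) * (v (Sum.inl f) : V)) = t * (∑ f : F, gV (rp f.1) * (v (Sum.inr f) : V)) := by
    apply hV.inj
    rw [← sub_eq_zero]
    refine eq_zero_of_pr φ fun γ => ?_
    rw [map_sub, hcomb y fun f => v (Sum.inl f), hcomb t fun f => v (Sum.inr f)]
    by_cases hγ : ∃ g ∈ G, g.1 = γ
    · obtain ⟨g, hg, rfl⟩ := hγ
      have h1 := hv ⟨g, hg⟩
      rw [Fintype.sum_sum_type] at h1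
      have h2 := congrArg (fun d : DV φ hV => jJ p u (rp g) * iV (d : V)) h1
      simp only [Sum.elim_inl, Sum.elim_inr, neg_mul, Finset.sum_neg_distrib, ← sub_eq_add_neg, AddSubgroupClass.coe_sub,
        ZeroMemClass.coe_zero, map_zero, mul_zero, map_sub, mul_sub, AddSubmonoidClass.coe_finsetSum, map_sum,
        MulMemClass.coe_mul, map_mul, Finset.mul_sum] at h2
      rw [← h2]
      simp only [ha, mul_assoc]
    · push Not at hγ
      rw [Finset.sum_eq_zero fun f _ => ?_, Finset.sum_eq_zero fun f _ => ?_, sub_zero]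
      · rw [hz t Set.subset_union_right f.1 f.2 γ hγ, zero_mul]
      · rw [hz y Set.subset_union_left f.1 f.2 γ hγ, zero_mul]
  refine ⟨_, hmem fun f => v (Sum.inl f), _, hmem fun f => v (Sum.inr f), fun hp0 => hv0 ?_, heq⟩
  rw [hp0, mul_zero] at heq
  have hr0 := (mul_eq_zero.1 heq.symm).resolve_left ht0
  funext i
  rcases i with f | f
  · exact hzero (fun f => v (Sum.inl f)) hp0 f
  · exact hzero (fun f => v (Sum.inr f)) hr0 f

end

end Pool.Agent.TW.F
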