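import Pool.Agent.TW.F.SN
import Pool.Agent.S12.Ore
import Pool.Agent.S12.LinD
import Pool.Agent.S12.Fol

/-!
# Project TW, flatness: the division ring `V` of the series with values in the components
-/

set_option autoImplicit false
set_option linter.unusedSectionVars false

open TensorProduct Pointwise

namespace Pool.Agent.TW.F

open Pool.Agent.S11 Pool.Agent.S11.FL Pool.Agent.S12
open Pool.Agent.H58.MN (Ser)

section

variable {A : Type} [Ring A] {Q : Type} [Group Q] [BO Q]
  {J : Type} [Group J] (p : J →* Q) (u : J →* A)
  {E : Type} [DivisionRing E] (kE : E →+* A)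
  {V : Type} [DivisionRing V] (iV : V →+* Ser A Q)

/-- `V` = the series with values in the components `E u(h)` -/
structure IsV : Prop where
  surj : Function.Surjective p
  ker_mem : ∀ n ∈ p.ker, u n ∈ kE.range
  conj : ∀ (h : J) (e : E), u h * kE e * u h⁻¹ ∈ kE.range
  mem_iff : ∀ f : Ser A Q, f ∈ iV.range ↔ ∀ h : J, f (p h) * u h⁻¹ ∈ kE.range
  inj : Function.Injective iV

end

end Pool.Agent.TW.F
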