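import Pool.Agent.TW.F.SN

/-!
# Project TW, flatness: the operators `Pd φ δ`

`comp (pr φ) α β` (FL/Grade) is the component `(α, β)` of `m ∈ V ⊗ (X ⊗ V)`; `Pd φ δ m = ∑ α, comp (pr φ) α (α⁻¹ δ) m` (a finite sum,
`φ` monotone).  `Lm s`, `Rm s` = multiplication by `s` on the first factor from the left, on the last factor from the right.
-/

set_option autoImplicit false
set_option linter.unusedSectionVars false

open TensorProduct

namespace Pool.Agent.TW.F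

open Pool.Agent.S11 Pool.Agent.S11.FL
open Pool.Agent.H58.MN (Ser)

section

variable {A : Type} [Ring A] {Q : Type} [Group Q] [BO Q] [Algebra (ZMod 2) A]
  {Γ : Type} [Group Γ] (φ : Q →* Γ) {X : Type} [AddCommGroup X] [Module (ZMod 2) X]

/-- the multiplication on the first factor -/
noncomputable def Lm (s : Ser A Q) : MM (ZMod 2) (Ser A Q) X →ₗ[ZMod 2] MM (ZMod 2) (Ser A Q) X :=
  (LinearMap.mulLeft (ZMod 2) s).rTensor (X ⊗[ZMod 2] Ser A Q)

/-- the multiplication on the last factor -/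
noncomputable def Rm (s : Ser A Q) : MM (ZMod 2) (Ser A Q) X →ₗ[ZMod 2] MM (ZMod 2) (Ser A Q) X :=
  TensorProduct.map (LinearMap.id : Ser A Q →ₗ[ZMod 2] Ser A Q)
      (TensorProduct.map (LinearMap.id : X →ₗ[ZMod 2] X) (LinearMap.mulRight (ZMod 2) s))

theorem Lm_tmul (s a : Ser A Q) (x : X) (b : Ser A Q) :
    Lm s (a ⊗ₜ[ZMod 2] (x ⊗ₜ[ZMod 2] b)) = (s * a) ⊗ₜ[ZMod 2] (x ⊗ₜ[ZMod 2] b) := rfl

theorem Rm_tmul (s a : Ser A Q) (x : X) (b : Ser A Q) :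
    Rm s (a ⊗ₜ[ZMod 2] (x ⊗ₜ[ZMod 2] b)) = a ⊗ₜ[ZMod 2] (x ⊗ₜ[ZMod 2] (b * s)) := rfl

theorem Lm_II {J : Type} [Group J] (w : J →* Ser A Q) (ρ : Representation (ZMod 2) J X) (N : Subgroup J) (s : Ser A Q)
    {m : MM (ZMod 2) (Ser A Q) X} (hm : m ∈ II w ρ N) : Lm s m ∈ II w ρ N := mulLeft_II (j := w) ρ N s hm

theorem Rm_II {J : Type} [Group J] (w : J →* Ser A Q) (ρ : Representation (ZMod 2) J X) (N : Subgroup J) (s : Ser A Q)
    {m : MM (ZMod 2) (Ser A Q) X} (hm : m ∈ II w ρ N) : Rm s m ∈ II w ρ N := mulRight_II (j := w) ρ N s hm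

theorem Lm_Lm (s t : Ser A Q) (m : MM (ZMod 2) (Ser A Q) X) : Lm s (Lm t m) = Lm (s * t) m := by
  have : Lm s ∘ₗ Lm t = Lm (X := X) (s * t) := MM_ext fun a x b => by
    rw [LinearMap.comp_apply, Lm_tmul, Lm_tmul, Lm_tmul, mul_assoc]
  exact LinearMap.congr_fun this m

theorem Rm_Rm (s t : Ser A Q) (m : MM (ZMod 2) (Ser A Q) X) : Rm s (Rm t m) = Rm (t * s) m := by
  have : Rm s ∘ₗ Rm t = Rm (X := X) (t * s) := MM_ext fun a x b => by
    rw [LinearMap.comp_apply, Rm_tmul, Rm_tmul, Rm_tmul, mul_assoc]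
  exact LinearMap.congr_fun this m

theorem Lm_one (m : MM (ZMod 2) (Ser A Q) X) : Lm 1 m = m := by
  have : Lm 1 = (LinearMap.id : MM (ZMod 2) (Ser A Q) X →ₗ[ZMod 2] _) := MM_ext fun a x b => by
    rw [Lm_tmul, one_mul, LinearMap.id_apply]
  exact LinearMap.congr_fun this m

theorem Rm_one (m : MM (ZMod 2) (Ser A Q) X) : Rm 1 m = m := by
  have : Rm 1 = (LinearMap.id : MM (ZMod 2) (Ser A Q) X →ₗ[ZMod 2] _) := MM_ext fun a x b => by
    rw [Rm_tmul, mul_one, LinearMap.id_apply]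
  exact LinearMap.congr_fun this m

theorem Lm_Rm (s t : Ser A Q) (m : MM (ZMod 2) (Ser A Q) X) : Lm s (Rm t m) = Rm t (Lm s m) := by
  have : Lm s ∘ₗ Rm t = Rm t ∘ₗ Lm (X := X) s := MM_ext fun a x b => by
    rw [LinearMap.comp_apply, LinearMap.comp_apply, Lm_tmul, Rm_tmul, Rm_tmul, Lm_tmul]
  exact LinearMap.congr_fun this m

theorem cos_pwo [BO Γ] (hφ : Monotone φ) (f : Ser A Q) : (cos φ f).IsPWO := f.wo.image_of_monotone hφ

/-- finitely many components -/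
theorem fin_comp [BO Γ] (hφ : Monotone φ) (δ : Γ) (m : MM (ZMod 2) (Ser A Q) X) :
    (Function.support fun α : Γ => comp (pr φ) α (α⁻¹ * δ) m).Finite := by
  have hadd : ∀ m m' : MM (ZMod 2) (Ser A Q) X,
      (Function.support fun α : Γ => comp (pr φ) α (α⁻¹ * δ) m).Finite →
      (Function.support fun α : Γ => comp (pr φ) α (α⁻¹ * δ) m').Finite →
      (Function.support fun α : Γ => comp (pr φ) α (α⁻¹ * δ) (m + m')).Finite := by
    intro m m' h h'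
    refine (h.union h').subset fun α hα => ?_
    by_contra hcon
    rw [Set.mem_union, not_or, Function.mem_support, Function.mem_support, not_not, not_not]
      at hcon
    exact hα (by
      change comp (pr φ) α (α⁻¹ * δ) (m + m') = 0
      rw [map_add, hcon.1, hcon.2, add_zero])
  have h0 : (Function.support fun α : Γ =>
      comp (pr φ) α (α⁻¹ * δ) (0 : MM (ZMod 2) (Ser A Q) X)).Finite := by
    refine Set.finite_empty.subset fun α hα => hα ?_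
    exact map_zero _
  induction m using TensorProduct.induction_on with
  | zero => exact h0
  | add s t hs ht => exact hadd s t hs ht
  | tmul a t =>
    induction t with
    | zero => rw [TensorProduct.tmul_zero]; exact h0
    | add s t hs ht => rw [TensorProduct.tmul_add]; exact hadd _ _ hs ht
    | tmul x b =>
      refine (fin_mul (cos_pwo φ hφ a) (cos_pwo φ hφ b) δ).subset fun α hα => ?_
      refine ⟨?_, ?_⟩
      · by_contra h1
        apply hα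
        change comp (pr φ) α (α⁻¹ * δ) (a ⊗ₜ[ZMod 2] (x ⊗ₜ[ZMod 2] b)) = 0
        rw [comp_tmul, pr_eq_zero φ h1, TensorProduct.zero_tmul]
      · by_contra h1
        apply hα
        change comp (pr φ) α (α⁻¹ * δ) (a ⊗ₜ[ZMod 2] (x ⊗ₜ[ZMod 2] b)) = 0
        rw [comp_tmul, pr_eq_zero φ h1, TensorProduct.tmul_zero, TensorProduct.tmul_zero]

/-- the operator -/
noncomputable def Pd (δ : Γ) (m : MM (ZMod 2) (Ser A Q) X) : MM (ZMod 2) (Ser A Q) X :=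
  ∑ᶠ α : Γ, comp (pr φ) α (α⁻¹ * δ) m

theorem Pd_add [BO Γ] (hφ : Monotone φ) (δ : Γ) (m m' : MM (ZMod 2) (Ser A Q) X) :
    Pd φ δ (m + m') = Pd φ δ m + Pd φ δ m' := by
  unfold Pd
  rw [← finsum_add_distrib (fin_comp φ hφ δ m) (fin_comp φ hφ δ m')]
  exact finsum_congr fun α => map_add _ _ _

theorem Pd_zero (δ : Γ) : Pd φ δ (0 : MM (ZMod 2) (Ser A Q) X) = 0 := by
  unfold Pd
  exact finsum_eq_zero_of_forall_eq_zero fun α => map_zero _

theorem comp_Lm (M : Finset (Γ)) (s : Ser A Q) (h : cos φ s ⊆ M) (α β : Γ) (m : MM (ZMod 2) (Ser A Q) X) :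
    comp (pr φ) α β (Lm s m) = ∑ μ ∈ M, Lm (pr φ μ s) (comp (pr φ) (μ⁻¹ * α) β m) := by
  have : comp (pr φ) α β ∘ₗ Lm (X := X) s =
      ∑ μ ∈ M, Lm (pr φ μ s) ∘ₗ comp (pr φ) (μ⁻¹ * α) β := MM_ext fun a x b => by
    rw [LinearMap.comp_apply, Lm_tmul, comp_tmul, pr_mul_left φ M s h, TensorProduct.sum_tmul,
      LinearMap.sum_apply]
    exact Finset.sum_congr rfl fun μ _ => by
      rw [LinearMap.comp_apply, comp_tmul, Lm_tmul]
  have h2 := LinearMap.congr_fun this m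
  rw [LinearMap.sum_apply] at h2
  exact h2

theorem comp_Rm (M : Finset (Γ)) (s : Ser A Q) (h : cos φ s ⊆ M) (α β : Γ) (m : MM (ZMod 2) (Ser A Q) X) :
    comp (pr φ) α β (Rm s m) = ∑ ν ∈ M, Rm (pr φ ν s) (comp (pr φ) α (β * ν⁻¹) m) := by
  have : comp (pr φ) α β ∘ₗ Rm (X := X) s =
      ∑ ν ∈ M, Rm (pr φ ν s) ∘ₗ comp (pr φ) α (β * ν⁻¹) := MM_ext fun a x b => by
    rw [LinearMap.comp_apply, Rm_tmul, comp_tmul, pr_mul_right φ M s h, TensorProduct.tmul_sum,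
      TensorProduct.tmul_sum, LinearMap.sum_apply]
    exact Finset.sum_congr rfl fun ν _ => by
      rw [LinearMap.comp_apply, comp_tmul, Rm_tmul]
  have h2 := LinearMap.congr_fun this m
  rw [LinearMap.sum_apply] at h2
  exact h2

private theorem Lm_Pd [BO Γ] (hφ : Monotone φ) (s : Ser A Q) (δ : Γ) (m : MM (ZMod 2) (Ser A Q) X) :
    Lm s (Pd φ δ m) = ∑ᶠ α : Γ, Lm s (comp (pr φ) α (α⁻¹ * δ) m) :=
  AddMonoidHom.map_finsum (Lm s).toAddMonoidHom (fin_comp φ hφ δ m)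

private theorem Rm_Pd [BO Γ] (hφ : Monotone φ) (s : Ser A Q) (δ : Γ) (m : MM (ZMod 2) (Ser A Q) X) :
    Rm s (Pd φ δ m) = ∑ᶠ α : Γ, Rm s (comp (pr φ) α (α⁻¹ * δ) m) :=
  AddMonoidHom.map_finsum (Rm s).toAddMonoidHom (fin_comp φ hφ δ m)

private theorem fin_Lm [BO Γ] (hφ : Monotone φ) (s : Ser A Q) (δ : Γ) (m : MM (ZMod 2) (Ser A Q) X) :
    (Function.support fun α : Γ => Lm s (comp (pr φ) α (α⁻¹ * δ) m)).Finite := by
  refine (fin_comp φ hφ δ m).subset fun α hα h0 => hα ?_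
  change Lm s (comp (pr φ) α (α⁻¹ * δ) m) = 0
  change comp (pr φ) α (α⁻¹ * δ) m = 0 at h0
  rw [h0, map_zero]

private theorem fin_Rm [BO Γ] (hφ : Monotone φ) (s : Ser A Q) (δ : Γ) (m : MM (ZMod 2) (Ser A Q) X) :
    (Function.support fun α : Γ => Rm s (comp (pr φ) α (α⁻¹ * δ) m)).Finite := by
  refine (fin_comp φ hφ δ m).subset fun α hα h0 => hα ?_
  change Rm s (comp (pr φ) α (α⁻¹ * δ) m) = 0
  change comp (pr φ) α (α⁻¹ * δ) m = 0 at h0
  rw [h0, map_zero]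

theorem Pd_Lm [BO Γ] (hφ : Monotone φ) (M : Finset (Γ)) (s : Ser A Q) (h : cos φ s ⊆ M) (γ : Γ)
    (m : MM (ZMod 2) (Ser A Q) X) : Pd φ γ (Lm s m) = ∑ μ ∈ M, Lm (pr φ μ s) (Pd φ (μ⁻¹ * γ) m) := by
  have h1 : ∀ μ : Γ, Lm (pr φ μ s) (Pd φ (μ⁻¹ * γ) m) =
      ∑ᶠ α : Γ, Lm (pr φ μ s) (comp (pr φ) (μ⁻¹ * α) (α⁻¹ * γ) m) := by
    intro μ
    rw [Lm_Pd φ hφ]
    symm
    refine finsum_eq_of_bijective (fun α : Γ => μ⁻¹ * α) (Group.mulLeft_bijective μ⁻¹)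
      fun α => ?_
    congr 2
    group
  have hfin : ∀ μ : Γ, (Function.support fun α : Γ =>
      Lm (pr φ μ s) (comp (pr φ) (μ⁻¹ * α) (α⁻¹ * γ) m)).Finite := by
    intro μ
    refine ((fin_Lm φ hφ (pr φ μ s) (μ⁻¹ * γ) m).preimage (f := fun α : Γ => μ⁻¹ * α)
      (mul_right_injective μ⁻¹).injOn).subset fun α hα => ?_
    intro h0
    apply hα
    change Lm (pr φ μ s) (comp (pr φ) (μ⁻¹ * α) ((μ⁻¹ * α)⁻¹ * (μ⁻¹ * γ)) m) = 0 at h0
    have e : (μ⁻¹ * α)⁻¹ * (μ⁻¹ * γ) = α⁻¹ * γ := by group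
    rw [e] at h0
    exact h0
  simp_rw [h1]
  rw [← finsum_sum_comm M _ fun μ _ => hfin μ]
  exact finsum_congr fun α => comp_Lm φ M s h α (α⁻¹ * γ) m

theorem Pd_Rm [BO Γ] (hφ : Monotone φ) (M : Finset (Γ)) (s : Ser A Q) (h : cos φ s ⊆ M) (γ : Γ)
    (m : MM (ZMod 2) (Ser A Q) X) : Pd φ γ (Rm s m) = ∑ ν ∈ M, Rm (pr φ ν s) (Pd φ (γ * ν⁻¹) m) := by
  have h1 : ∀ ν : Γ, Rm (pr φ ν s) (Pd φ (γ * ν⁻¹) m) =
      ∑ᶠ α : Γ, Rm (pr φ ν s) (comp (pr φ) α (α⁻¹ * (γ * ν⁻¹)) m) := fun ν =>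
    Rm_Pd φ hφ _ _ m
  simp_rw [h1]
  rw [← finsum_sum_comm M _ fun ν _ => fin_Rm φ hφ (pr φ ν s) (γ * ν⁻¹) m]
  refine finsum_congr fun α => ?_
  rw [comp_Rm φ M s h α (α⁻¹ * γ) m]
  exact Finset.sum_congr rfl fun ν _ => by rw [mul_assoc]

variable (X) in
/-- the span of the pure tensors with entries which meet only the cosets in `MA`, `MB` -/
noncomputable def TS (MA MB : Finset (Γ)) : Submodule (ZMod 2) (MM (ZMod 2) (Ser A Q) X) :=
  Submodule.span (ZMod 2) {z | ∃ (a : Ser A Q) (x : X) (b : Ser A Q), cos φ a ⊆ MA ∧ cos φ b ⊆ MB ∧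
    z = a ⊗ₜ[ZMod 2] (x ⊗ₜ[ZMod 2] b)}

/-- **Recomposition** -/
theorem mem_of_Pd [BO Γ] (hφ : Monotone φ) {MA MB : Finset (Γ)} {x : MM (ZMod 2) (Ser A Q) X} (hx : x ∈ TS φ X MA MB)
    (L : Submodule (ZMod 2) (MM (ZMod 2) (Ser A Q) X)) (h : ∀ γ, Pd φ γ x ∈ L) : x ∈ L := by
  classical
  have key : ∑ γ ∈ (MA ×ˢ MB).image (fun p => p.1 * p.2), Pd φ γ x = x := by
    clear h
    induction hx using Submodule.span_induction with
    | zero =>
      refine Finset.sum_eq_zero fun γ _ => Pd_zero φ γ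
    | add y z _ _ hy hz =>
      simp_rw [Pd_add φ hφ]
      rw [Finset.sum_add_distrib, hy, hz]
    | smul k y _ hy =>
      have hk : ∀ γ, Pd φ γ (k • y) = k • Pd φ γ y := by
        intro γ
        unfold Pd
        rw [smul_finsum]
        exact finsum_congr fun α => map_smul _ _ _
      simp_rw [hk]
      rw [← Finset.smul_sum, hy]
    | mem z hz =>
      obtain ⟨a, x, b, ha, hb, rfl⟩ := hz
      have h1 : ∀ γ : Γ, Pd φ γ (a ⊗ₜ[ZMod 2] (x ⊗ₜ[ZMod 2] b)) =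
          ∑ α ∈ MA, pr φ α a ⊗ₜ[ZMod 2] (x ⊗ₜ[ZMod 2] pr φ (α⁻¹ * γ) b) := by
        intro γ
        refine finsum_eq_sum_of_support_subset _ fun α hα => ?_
        by_contra h2
        apply hα
        change comp (pr φ) α (α⁻¹ * γ) (a ⊗ₜ[ZMod 2] (x ⊗ₜ[ZMod 2] b)) = 0
        rw [comp_tmul, pr_eq_zero φ fun h3 => h2 (ha h3), TensorProduct.zero_tmul]
      simp_rw [h1]
      rw [Finset.sum_comm]
      have h2 : ∀ α ∈ MA, ∑ γ ∈ (MA ×ˢ MB).image (fun p => p.1 * p.2),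
          pr φ α a ⊗ₜ[ZMod 2] (x ⊗ₜ[ZMod 2] pr φ (α⁻¹ * γ) b) =
          pr φ α a ⊗ₜ[ZMod 2] (x ⊗ₜ[ZMod 2] b) := by
        intro α hα
        rw [← TensorProduct.tmul_sum, ← TensorProduct.tmul_sum]
        congr 2
        have h3 := sum_pr φ (((MA ×ˢ MB).image fun p => p.1 * p.2).image fun γ => α⁻¹ * γ) b (by
          intro β hβ
          rw [Finset.coe_image]
          refine ⟨α * β, Finset.mem_image.2 ⟨(α, β), ?_, rfl⟩, inv_mul_cancel_left α β⟩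
          exact Finset.mem_product.2 ⟨hα, hb hβ⟩)
        rw [Finset.sum_image fun γ _ γ' _ h => mul_left_cancel h] at h3
        exact h3
      rw [Finset.sum_congr rfl h2, ← TensorProduct.sum_tmul, sum_pr φ MA a ha]
  rw [← key]
  exact Submodule.sum_mem _ fun γ _ => h γ

end

end Pool.Agent.TW.F
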