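import Pool.Agent.TW.F.Defs

/-!
# Project TW, flatness: the invariant with values in the functions from `Q` to the coinvariants of the kernel

`Psi (a ⊗ x ⊗ b) d = ∑ α, [a(α) u(h)⁻¹ ⊗ h x ⊗ u(h) b(α⁻¹ d)]`, `h` over `α`.
-/

set_option autoImplicit false
set_option linter.unusedSectionVars false

open TensorProduct

namespace Pool.Agent.TW.F

open Pool.Agent.S11 Pool.Agent.S11.FL
open Pool.Agent.H58.MN (Ser)

section

variable {A : Type} [Ring A] {Q : Type} [Group Q] [BO Q] [Algebra (ZMod 2) A]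
  {J : Type} [Group J] (p : J →* Q) (u : J →* A)
  {X : Type} [AddCommGroup X] [Module (ZMod 2) X] (ρ : Representation (ZMod 2) J X)
  (hp : Function.Surjective p)

/-- the term -/
noncomputable def trm (a : Ser A Q) (x : X) (b : Ser A Q) (d α : Q) : WW p u ρ :=
  Tr p u ρ hp α (a α ⊗ₜ[ZMod 2] (x ⊗ₜ[ZMod 2] b (α⁻¹ * d)))

theorem trm_fin (a : Ser A Q) (x : X) (b : Ser A Q) (d : Q) :
    (Function.support (trm p u ρ hp a x b d)).Finite := by
  refine (Ser.fin_left a b d).subset fun α hα => ⟨fun h => hα ?_, fun h => hα ?_⟩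
  · rw [trm, h, TensorProduct.zero_tmul, map_zero]
  · rw [trm, h, TensorProduct.tmul_zero, TensorProduct.tmul_zero, map_zero]

/-- the bilinear map -/
noncomputable def psiB (a : Ser A Q) : X →ₗ[ZMod 2] Ser A Q →ₗ[ZMod 2] (Q → WW p u ρ) :=
  LinearMap.mk₂ (ZMod 2) (fun x b d => ∑ᶠ α : Q, trm p u ρ hp a x b d α)
    (fun x y b => by
      funext d
      change _ = (∑ᶠ α : Q, trm p u ρ hp a x b d α) + ∑ᶠ α : Q, trm p u ρ hp a y b d α
      rw [← finsum_add_distrib (trm_fin p u ρ hp a x b d) (trm_fin p u ρ hp a y b d)]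
      exact finsum_congr fun α => by
        rw [trm, trm, trm, TensorProduct.add_tmul, TensorProduct.tmul_add, map_add])
    (fun k x b => by
      funext d
      change _ = k • ∑ᶠ α : Q, trm p u ρ hp a x b d α
      rw [smul_finsum]
      exact finsum_congr fun α => by
        rw [trm, trm, ← TensorProduct.smul_tmul', TensorProduct.tmul_smul, map_smul])
    (fun x b b' => by
      funext d
      change _ = (∑ᶠ α : Q, trm p u ρ hp a x b d α) + ∑ᶠ α : Q, trm p u ρ hp a x b' d α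
      rw [← finsum_add_distrib (trm_fin p u ρ hp a x b d) (trm_fin p u ρ hp a x b' d)]
      exact finsum_congr fun α => by
        rw [trm, trm, trm, Ser.add_apply, TensorProduct.tmul_add, TensorProduct.tmul_add, map_add])
    (fun k x b => by
      funext d
      change _ = k • ∑ᶠ α : Q, trm p u ρ hp a x b d α
      rw [smul_finsum]
      exact finsum_congr fun α => by
        rw [trm, trm, smul_apply, TensorProduct.tmul_smul, TensorProduct.tmul_smul, map_smul])

/-- **The invariant** -/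
noncomputable def Psi : MM (ZMod 2) (Ser A Q) X →ₗ[ZMod 2] (Q → WW p u ρ) :=
  TensorProduct.lift
    { toFun := fun a => TensorProduct.lift (psiB p u ρ hp a)
      map_add' := fun a a' => TensorProduct.ext' fun x b => by
        rw [LinearMap.add_apply, TensorProduct.lift.tmul, TensorProduct.lift.tmul, TensorProduct.lift.tmul]
        funext d
        change _ = (∑ᶠ α : Q, trm p u ρ hp a x b d α) + ∑ᶠ α : Q, trm p u ρ hp a' x b d α
        rw [← finsum_add_distrib (trm_fin p u ρ hp a x b d) (trm_fin p u ρ hp a' x b d)]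
        exact finsum_congr fun α => by rw [trm, trm, trm, Ser.add_apply, TensorProduct.add_tmul, map_add]
      map_smul' := fun k a => TensorProduct.ext' fun x b => by
        rw [LinearMap.smul_apply, TensorProduct.lift.tmul, TensorProduct.lift.tmul]
        funext d
        change _ = k • ∑ᶠ α : Q, trm p u ρ hp a x b d α
        rw [smul_finsum]
        exact finsum_congr fun α => by rw [trm, trm, smul_apply, ← TensorProduct.smul_tmul', map_smul] }

theorem Psi_tmul (a : Ser A Q) (x : X) (b : Ser A Q) (d : Q) :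
    Psi p u ρ hp (a ⊗ₜ[ZMod 2] (x ⊗ₜ[ZMod 2] b)) d = ∑ᶠ α : Q, trm p u ρ hp a x b d α := rfl

/-- it is invariant -/
theorem Psi_act (g : J) (m : MM (ZMod 2) (Ser A Q) X) :
    Psi p u ρ hp (act (jJ p u) ρ g m) = Psi p u ρ hp m := by
  have : Psi p u ρ hp ∘ₗ act (jJ p u) ρ g = Psi p u ρ hp := MM_ext fun a x b => by
    rw [LinearMap.comp_apply, act_tmul]
    funext d
    rw [Psi_tmul, Psi_tmul]
    refine finsum_eq_of_bijective (fun α : Q => α * p g) (Group.mulRight_bijective (p g)) fun α => ?_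
    rw [trm, trm, mul_jJ_apply, jJ_mul_apply, map_inv, inv_inv, ← Tr_act, act_tmul, mul_inv_rev, mul_assoc]
  exact LinearMap.congr_fun this m

theorem Psi_II {N : Subgroup J} {m : MM (ZMod 2) (Ser A Q) X} (hm : m ∈ II (jJ p u) ρ N) :
    Psi p u ρ hp m = 0 := by
  have : II (jJ p u) ρ N ≤ LinearMap.ker (Psi p u ρ hp) := II_le (jJ p u) ρ fun g _ m => by
    rw [LinearMap.mem_ker, map_sub, Psi_act, sub_self]
  exact this hm

variable {X' : Type} [AddCommGroup X'] [Module (ZMod 2) X'] (ρ' : Representation (ZMod 2) J X')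

/-- the induced map -/
noncomputable def WWmap (i : X →ₗ[ZMod 2] X') (hi : ∀ g x, i (ρ g x) = ρ' g (i x)) : WW p u ρ →ₗ[ZMod 2] WW p u ρ' :=
  Submodule.mapQ _ _ (mapX A i) fun _ hm => mapX_II u ρ ρ' i hi hm

theorem WWmap_mk (i : X →ₗ[ZMod 2] X') (hi : ∀ g x, i (ρ g x) = ρ' g (i x)) (m : MM (ZMod 2) A X) :
    WWmap p u ρ ρ' i hi ((II u ρ p.ker).mkQ m) = (II u ρ' p.ker).mkQ (mapX A i m) := rfl

theorem WWmap_Tr (i : X →ₗ[ZMod 2] X') (hi : ∀ g x, i (ρ g x) = ρ' g (i x)) (α : Q) (m : MM (ZMod 2) A X) :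
    WWmap p u ρ ρ' i hi (Tr p u ρ hp α m) = Tr p u ρ' hp α (mapX A i m) := by
  rw [Tr, Tr, LinearMap.comp_apply, LinearMap.comp_apply, WWmap_mk, mapX_act u ρ ρ' i hi]

/-- it is natural -/
theorem Psi_map (i : X →ₗ[ZMod 2] X') (hi : ∀ g x, i (ρ g x) = ρ' g (i x)) (m : MM (ZMod 2) (Ser A Q) X) (d : Q) :
    Psi p u ρ' hp (mapX (Ser A Q) i m) d = WWmap p u ρ ρ' i hi (Psi p u ρ hp m d) := by
  have : Psi p u ρ' hp ∘ₗ mapX (Ser A Q) i = ((WWmap p u ρ ρ' i hi).compLeft Q) ∘ₗ Psi p u ρ hp :=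
    MM_ext fun a x b => by
      rw [LinearMap.comp_apply, mapX_tmul]
      funext d
      change _ = WWmap p u ρ ρ' i hi (Psi p u ρ hp (a ⊗ₜ[ZMod 2] (x ⊗ₜ[ZMod 2] b)) d)
      rw [Psi_tmul, Psi_tmul]
      rw [show WWmap p u ρ ρ' i hi (∑ᶠ α : Q, trm p u ρ hp a x b d α) =
        ∑ᶠ α : Q, WWmap p u ρ ρ' i hi (trm p u ρ hp a x b d α) from
        (WWmap p u ρ ρ' i hi).toAddMonoidHom.map_finsum (trm_fin p u ρ hp a x b d)]
      exact finsum_congr fun α => by rw [trm, trm, WWmap_Tr, mapX_tmul]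
  exact congrFun (LinearMap.congr_fun this m) d

/-- the map on the coinvariants is injective -/
theorem WWmap_injective (hflat : FlatOn.{0} (K := ZMod 2) u p.ker) (i : X →ₗ[ZMod 2] X') (hinj : Function.Injective i)
    (hi : ∀ g x, i (ρ g x) = ρ' g (i x)) : Function.Injective (WWmap p u ρ ρ' i hi) := by
  rw [injective_iff_map_eq_zero]
  intro w hw
  obtain ⟨m, rfl⟩ := Submodule.mkQ_surjective _ w
  rw [WWmap_mk, ← LinearMap.mem_ker, Submodule.ker_mkQ] at hw
  rw [← LinearMap.mem_ker, Submodule.ker_mkQ]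
  exact hflat X X' ρ ρ' i hinj hi m hw

end

end Pool.Agent.TW.F
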