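import Pool.Agent.TW.F.Pd
import Pool.Agent.TW.F.Psi

/-!
# Project TW, flatness: `Pd φ δ m ∈ II` if the entries of `m` have finite fibres and `Psi m = 0`

`Psi_Pd`: `Psi (Pd φ δ m)` is the part of `Psi m` over `δ`.  `mem_II_of_Psi`: a sum of tensors of monomials is in
`II` if its invariant vanishes (modulo `II` it is `∑_d eps d (F d)`, and `Psi` is the class of `F d`).
For entries with finite fibres `Pd φ δ m` is such a sum.
-/

set_option autoImplicit false
set_option linter.unusedSectionVars false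

open TensorProduct

namespace Pool.Agent.TW.F

open Pool.Agent.S11 Pool.Agent.S11.FL
open Pool.Agent.H58.MN (Ser)

section

variable {A : Type} [Ring A] {Q : Type} [Group Q] [BO Q] [Algebra (ZMod 2) A]
  {J : Type} [Group J] (p : J →* Q) (u : J →* A) (hp : Function.Surjective p)
  {Γ : Type} [Group Γ] (φ : Q →* Γ) {X : Type} [AddCommGroup X] [Module (ZMod 2) X]
  (ρ : Representation (ZMod 2) J X)

theorem trm_zero_left {a : Ser A Q} {x : X} {b : Ser A Q} {d α : Q} (h : a α = 0) :
    trm p u ρ hp a x b d α = 0 := by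
  rw [trm, h, TensorProduct.zero_tmul, map_zero]

theorem trm_zero_right {a : Ser A Q} {x : X} {b : Ser A Q} {d α : Q} (h : b (α⁻¹ * d) = 0) :
    trm p u ρ hp a x b d α = 0 := by
  rw [trm, h, TensorProduct.tmul_zero, TensorProduct.tmul_zero, map_zero]

/-- the value of the invariant on monomials -/
theorem Psi_single [DecidableEq Q] (q q' : Q) (a b : A) (x : X) (d : Q) :
    Psi p u ρ hp (Ser.single q a ⊗ₜ[ZMod 2] (x ⊗ₜ[ZMod 2] Ser.single q' b)) d =
      if d = q * q' then Tr p u ρ hp q (a ⊗ₜ[ZMod 2] (x ⊗ₜ[ZMod 2] b)) else 0 := by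
  rw [Psi_tmul, finsum_eq_single _ q]
  · split_ifs with hd
    · rw [trm, Ser.single_self, hd, inv_mul_cancel_left, Ser.single_self]
    · exact trm_zero_right p u hp ρ (Ser.single_ne (fun h => hd (by rw [← h, mul_inv_cancel_left])) b)
  · intro q₁ hq
    exact trm_zero_left p u hp ρ (Ser.single_ne hq a)

/-- the invariant of the part of degree `δ`, over `δ` -/
theorem Psi_Pd [BO Γ] (hφ : Monotone φ) (δ : Γ) (m : MM (ZMod 2) (Ser A Q) X) (d : Q)
    (hd : φ d = δ) : Psi p u ρ hp (Pd φ δ m) d = Psi p u ρ hp m d := by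
  classical
  induction m using TensorProduct.induction_on with
  | zero => rw [Pd_zero, map_zero]
  | add s t hs ht => rw [Pd_add φ hφ, map_add, map_add, Pi.add_apply, Pi.add_apply, hs, ht]
  | tmul a t =>
    induction t using TensorProduct.induction_on with
    | zero => rw [TensorProduct.tmul_zero, Pd_zero, map_zero]
    | add s t hs ht =>
      rw [TensorProduct.tmul_add, Pd_add φ hφ, map_add, map_add, Pi.add_apply, Pi.add_apply, hs, ht]
    | tmul x b =>
      let F : MM (ZMod 2) (Ser A Q) X →+ WW p u ρ :=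
        ((LinearMap.proj d : (Q → WW p u ρ) →ₗ[ZMod 2] WW p u ρ).comp (Psi p u ρ hp)).toAddMonoidHom
      have hE : ∀ m, F m = Psi p u ρ hp m d := fun _ => rfl
      have h1 := map_finsum F (fin_comp φ hφ δ (a ⊗ₜ[ZMod 2] (x ⊗ₜ[ZMod 2] b)))
      unfold Pd
      rw [← hE, h1]
      set S : Finset Q := (Ser.fin_left a b d).toFinset with hS
      have hval : ∀ α : Γ, F (comp (pr φ) α (α⁻¹ * δ) (a ⊗ₜ[ZMod 2] (x ⊗ₜ[ZMod 2] b))) =
          ∑ q ∈ S, if φ q = α then trm p u ρ hp a x b d q else 0 := by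
        intro α
        rw [hE, comp_tmul, Psi_tmul, finsum_eq_sum_of_support_subset (s := S)]
        · refine Finset.sum_congr rfl fun q _ => ?_
          split_ifs with hh
          · rw [trm, trm, pr_c φ _ _ _ hh, pr_c φ]
            rw [map_mul, map_inv, hh, hd]
          · exact trm_zero_left p u hp ρ (pr_c_ne φ _ _ _ hh)
        · intro q hq
          rw [Function.mem_support] at hq
          rw [hS, Finset.mem_coe, Set.Finite.mem_toFinset]
          by_cases h1 : φ q = α
          · refine ⟨fun h0 => hq ?_, fun h0 => hq ?_⟩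
            · exact trm_zero_left p u hp ρ (by rw [pr_c φ _ _ _ h1, h0])
            · refine trm_zero_right p u hp ρ ?_
              rw [pr_c φ, h0]
              rw [map_mul, map_inv, h1, hd]
          · exact absurd (trm_zero_left p u hp ρ (pr_c_ne φ _ _ _ h1)) hq
      rw [finsum_congr hval, finsum_sum_comm]
      · rw [Psi_tmul, finsum_eq_sum_of_support_subset (s := S)]
        · refine Finset.sum_congr rfl fun q _ => ?_
          rw [finsum_eq_single _ (φ q) fun α hα => if_neg fun h2 => hα h2.symm, if_pos rfl]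
        · intro q hq
          rw [Function.mem_support] at hq
          rw [hS, Finset.mem_coe, Set.Finite.mem_toFinset]
          exact ⟨fun h0 => hq (trm_zero_left p u hp ρ h0), fun h0 => hq (trm_zero_right p u hp ρ h0)⟩
      · intro q _
        refine (Set.finite_singleton (φ q)).subset fun α hα => ?_
        rw [Function.mem_support] at hα
        by_contra h2
        exact hα (if_neg fun h3 => h2 h3.symm)

/-- the invariant of the part of degree `δ`, away from `δ` -/
theorem Psi_Pd_ne [BO Γ] (hφ : Monotone φ) (δ : Γ) (m : MM (ZMod 2) (Ser A Q) X) (d : Q)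
    (hd : φ d ≠ δ) : Psi p u ρ hp (Pd φ δ m) d = 0 := by
  induction m using TensorProduct.induction_on with
  | zero =>
    rw [Pd_zero, map_zero]
    rfl
  | add s t hs ht => rw [Pd_add φ hφ, map_add, Pi.add_apply, hs, ht, add_zero]
  | tmul a t =>
    induction t using TensorProduct.induction_on with
    | zero =>
      rw [TensorProduct.tmul_zero, Pd_zero, map_zero]
      rfl
    | add s t hs ht => rw [TensorProduct.tmul_add, Pd_add φ hφ, map_add, Pi.add_apply, hs, ht, add_zero]
    | tmul x b =>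
      let F : MM (ZMod 2) (Ser A Q) X →+ WW p u ρ :=
        ((LinearMap.proj d : (Q → WW p u ρ) →ₗ[ZMod 2] WW p u ρ).comp (Psi p u ρ hp)).toAddMonoidHom
      have hE : ∀ m, F m = Psi p u ρ hp m d := fun _ => rfl
      have h1 := map_finsum F (fin_comp φ hφ δ (a ⊗ₜ[ZMod 2] (x ⊗ₜ[ZMod 2] b)))
      unfold Pd
      rw [← hE, h1]
      refine finsum_eq_zero_of_forall_eq_zero fun α => ?_
      rw [hE, comp_tmul, Psi_tmul]
      refine finsum_eq_zero_of_forall_eq_zero fun q => ?_
      by_cases h2 : φ q = α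
      · refine trm_zero_right p u hp ρ (pr_c_ne φ (α⁻¹ * δ) b (q⁻¹ * d) ?_)
        rw [map_mul, map_inv, h2]
        exact fun h3 => hd (mul_left_cancel h3)
      · exact trm_zero_left p u hp ρ (pr_c_ne φ _ _ _ h2)

/-- the invariant of the part of degree `δ` -/
theorem Psi_Pd_zero [BO Γ] (hφ : Monotone φ) (δ : Γ) {m : MM (ZMod 2) (Ser A Q) X}
    (hm : Psi p u ρ hp m = 0) : Psi p u ρ hp (Pd φ δ m) = 0 := by
  funext d
  by_cases hd : φ d = δ
  · rw [Psi_Pd p u hp φ ρ hφ δ m d hd, hm]
  · rw [Psi_Pd_ne p u hp φ ρ hφ δ m d hd]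
    rfl

variable (A Q X) in
/-- the sums of tensors of monomials -/
noncomputable def GG : Submodule (ZMod 2) (MM (ZMod 2) (Ser A Q) X) :=
  Submodule.span (ZMod 2) {t | ∃ (q q' : Q) (a b : A) (x : X),
    t = Ser.single q a ⊗ₜ[ZMod 2] (x ⊗ₜ[ZMod 2] Ser.single q' b)}

/-- **the kernel of the invariant on the tensors of monomials** -/
theorem mem_II_of_Psi {t : MM (ZMod 2) (Ser A Q) X} (ht : t ∈ GG A Q X)
    (h0 : Psi p u ρ hp t = 0) : t ∈ II (jJ p u) ρ (⊤ : Subgroup J) := by
  classical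
  let ε : (Q →₀ MM (ZMod 2) A X) →ₗ[ZMod 2] MM (ZMod 2) (Ser A Q) X :=
    Finsupp.lsum (ZMod 2) fun d => eps d
  have key : ∃ F : Q →₀ MM (ZMod 2) A X, (∀ d, Psi p u ρ hp t d = (II u ρ p.ker).mkQ (F d)) ∧
      t - ε F ∈ II (jJ p u) ρ (⊤ : Subgroup J) := by
    clear h0
    unfold GG at ht
    induction ht using Submodule.span_induction with
    | mem t ht =>
      obtain ⟨q, q', a, b, x, rfl⟩ := ht
      obtain ⟨h, rfl⟩ := hp q
      refine ⟨Finsupp.single (p h * q') (act u ρ h (a ⊗ₜ[ZMod 2] (x ⊗ₜ[ZMod 2] b))), fun d => ?_, ?_⟩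
      · rw [Psi_single, Finsupp.single_apply]
        by_cases hd : d = p h * q'
        · rw [if_pos hd, if_pos hd.symm, Tr_eq p u ρ hp]
        · rw [if_neg hd, if_neg fun h1 => hd h1.symm, map_zero]
      · have h1 : ε (Finsupp.single (p h * q') (act u ρ h (a ⊗ₜ[ZMod 2] (x ⊗ₜ[ZMod 2] b)))) =
            act (jJ p u) ρ h (Ser.single (p h) a ⊗ₜ[ZMod 2] (x ⊗ₜ[ZMod 2] Ser.single q' b)) := by
          rw [single_tmul_single]
          exact Finsupp.lsum_single _ _ _ _
        rw [h1, ← neg_sub]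
        exact Submodule.neg_mem _ (act_sub_mem (jJ p u) ρ (Subgroup.mem_top h) _)
    | zero =>
      exact ⟨0, fun d => by rw [map_zero, Finsupp.zero_apply, map_zero]; rfl,
        by rw [map_zero, sub_zero]; exact Submodule.zero_mem _⟩
    | add s t _ _ hs ht =>
      obtain ⟨F, h1, h2⟩ := hs
      obtain ⟨F', h1', h2'⟩ := ht
      refine ⟨F + F', fun d => by rw [map_add, Pi.add_apply, h1, h1', Finsupp.add_apply, map_add], ?_⟩
      have e : s + t - ε (F + F') = (s - ε F) + (t - ε F') := by rw [map_add]; abel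
      rw [e]
      exact Submodule.add_mem _ h2 h2'
    | smul a t _ ht =>
      obtain ⟨F, h1, h2⟩ := ht
      refine ⟨a • F, fun d => by rw [map_smul, Pi.smul_apply, h1, Finsupp.smul_apply, map_smul], ?_⟩
      rw [map_smul, ← smul_sub]
      exact Submodule.smul_mem _ a h2
  obtain ⟨F, h1, h2⟩ := key
  have h3 : ∀ d, F d ∈ II u ρ p.ker := by
    intro d
    rw [← Submodule.ker_mkQ (II u ρ p.ker), LinearMap.mem_ker, ← h1 d, h0]
    rfl
  have h4 : ε F ∈ II (jJ p u) ρ (⊤ : Subgroup J) := by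
    have e : ε F = F.sum fun d m => eps d m := Finsupp.lsum_apply _ _ _
    rw [e]
    exact Submodule.sum_mem _ fun d _ => eps_II p u ρ d (h3 d)
  have h5 := Submodule.add_mem _ h2 h4
  rwa [sub_add_cancel] at h5

/-- finite fibres -/
def Fine (a : Ser A Q) : Prop := ∀ γ : Γ, {x : Q | a x ≠ 0 ∧ φ x = γ}.Finite

variable (X) in
/-- the span of the pure tensors with entries in `F` -/
noncomputable def TT (F : Set (Ser A Q)) : Submodule (ZMod 2) (MM (ZMod 2) (Ser A Q) X) :=
  Submodule.span (ZMod 2) {z | ∃ (a : Ser A Q) (x : X) (b : Ser A Q), a ∈ F ∧ b ∈ F ∧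
    z = a ⊗ₜ[ZMod 2] (x ⊗ₜ[ZMod 2] b)}

theorem sum_apply {ι : Type} (s : Finset ι) (f : ι → Ser A Q) (x : Q) : (∑ i ∈ s, f i) x = ∑ i ∈ s, f i x := by
  classical
  induction s using Finset.induction_on with
  | empty => rw [Finset.sum_empty, Finset.sum_empty, Ser.zero_apply]
  | insert i s hi ih => rw [Finset.sum_insert hi, Finset.sum_insert hi, Ser.add_apply, ih]

/-- the components of a series with finite fibres are finite sums of monomials -/
theorem pr_fine {a : Ser A Q} (ha : Fine φ a) (α : Γ) : ∃ S : Finset Q, pr φ α a = ∑ q ∈ S, Ser.single q (a q) := by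
  classical
  refine ⟨(ha α).toFinset, ?_⟩
  ext x
  rw [sum_apply]
  have h2 : ∀ q ∈ (ha α).toFinset, (Ser.single q (a q) : Ser A Q) x = if q = x then a x else 0 := by
    intro q _
    split_ifs with h1
    · rw [h1, Ser.single_self]
    · exact Ser.single_ne (fun h3 => h1 h3.symm) _
  rw [Finset.sum_congr rfl h2, Finset.sum_ite_eq' (ha α).toFinset x]
  by_cases hx : φ x = α
  · rw [pr_c φ _ _ _ hx]
    by_cases h0 : a x = 0
    · rw [h0]
      split_ifs <;> rfl
    · have hm : x ∈ (ha α).toFinset := by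
        rw [Set.Finite.mem_toFinset]
        exact ⟨h0, hx⟩
      rw [if_pos hm]
  · rw [pr_c_ne φ _ _ _ hx, if_neg]
    rw [Set.Finite.mem_toFinset]
    exact fun h3 => hx h3.2

theorem gg_mem (q q' : Q) (a b : A) (x : X) :
    Ser.single q a ⊗ₜ[ZMod 2] (x ⊗ₜ[ZMod 2] Ser.single q' b) ∈ GG A Q X := by
  unfold GG
  exact Submodule.subset_span ⟨q, q', a, b, x, rfl⟩

/-- the parts of degree `δ` of the tensors of series with finite fibres are sums of tensors of monomials -/
theorem Pd_mem_GG [BO Γ] (hφ : Monotone φ) {F : Set (Ser A Q)} (hF : ∀ a ∈ F, Fine φ a) {m : MM (ZMod 2) (Ser A Q) X}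
    (hm : m ∈ TT X F) (δ : Γ) : Pd φ δ m ∈ GG A Q X := by
  unfold TT at hm
  induction hm using Submodule.span_induction with
  | mem z hz =>
    obtain ⟨a, x, b, ha, hb, rfl⟩ := hz
    unfold Pd
    refine finsum_induction (fun t => t ∈ GG A Q X) (Submodule.zero_mem _) (fun _ _ => Submodule.add_mem _) fun α => ?_
    rw [comp_tmul]
    obtain ⟨S, hS⟩ := pr_fine φ (hF a ha) α
    obtain ⟨T, hT⟩ := pr_fine φ (hF b hb) (α⁻¹ * δ)
    rw [hS, hT, TensorProduct.sum_tmul]
    refine Submodule.sum_mem _ fun h _ => ?_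
    rw [TensorProduct.tmul_sum, TensorProduct.tmul_sum]
    exact Submodule.sum_mem _ fun k _ => gg_mem h k _ _ x
  | zero =>
    rw [Pd_zero]
    exact Submodule.zero_mem _
  | add s t _ _ hs ht =>
    rw [Pd_add φ hφ]
    exact Submodule.add_mem _ hs ht
  | smul k t _ ht =>
    have e : Pd φ δ (k • t) = k • Pd φ δ t := by
      unfold Pd
      rw [smul_finsum]
      exact finsum_congr fun α => map_smul _ _ _
    rw [e]
    exact Submodule.smul_mem _ k ht

/-- **The elements with finite fibres** -/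
theorem Pd_II [BO Γ] (hφ : Monotone φ) {F : Set (Ser A Q)} (hF : ∀ a ∈ F, Fine φ a)
    {m : MM (ZMod 2) (Ser A Q) X} (hm : m ∈ TT X F) (h0 : Psi p u ρ hp m = 0) (δ : Γ) :
    Pd φ δ m ∈ II (jJ p u) ρ (⊤ : Subgroup J) :=
  mem_II_of_Psi p u hp ρ (Pd_mem_GG φ hφ hF hm δ) (Psi_Pd_zero p u hp φ ρ hφ δ h0)

end

end Pool.Agent.TW.F
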