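import Pool.Agent.TW.F.Defs

/-!
# Project TW, flatness: components over a homomorphism `φ : Q →* Γ`

`pr φ γ` = restriction of the support to `φ⁻¹(γ)`, `cos φ f` = the elements of `Γ` which are met by the support,
`SN φ` = the series which meet finitely many fibres.
-/

set_option autoImplicit false
set_option linter.unusedSectionVars false

open TensorProduct Pointwise

namespace Pool.Agent.TW.F

open Pool.Agent.S11 Pool.Agent.S11.FL
open Pool.Agent.H58.MN (Ser)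

section

variable {A : Type} [Ring A] {Q : Type} [Group Q] [BO Q] [Algebra (ZMod 2) A]
  {Γ : Type} [Group Γ] (φ : Q →* Γ)

/-- the component over `γ` -/
noncomputable def pr (γ : Γ) : Ser A Q →ₗ[ZMod 2] Ser A Q :=
  (Ser.restr (φ ⁻¹' {γ}) : Ser A Q →ₗ[A] Ser A Q).toAddMonoidHom.toZModLinearMap 2

theorem pr_def (γ : Γ) (f : Ser A Q) : pr φ γ f = Ser.restr (φ ⁻¹' {γ}) f := rfl

theorem pr_c (γ : Γ) (f : Ser A Q) (x : Q) (h : φ x = γ) : pr φ γ f x = f x :=
  Ser.restr_of_mem (S := φ ⁻¹' {γ}) (x := x) h f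

theorem pr_c_ne (γ : Γ) (f : Ser A Q) (x : Q) (h : φ x ≠ γ) : pr φ γ f x = 0 :=
  Ser.restr_of_notMem (S := φ ⁻¹' {γ}) (x := x) h f

theorem eq_zero_of_pr {f : Ser A Q} (h : ∀ γ, pr φ γ f = 0) : f = 0 := by
  ext x
  rw [← pr_c φ (φ x) f x rfl, h]

open Classical in
theorem pr_pr (γ δ : Γ) (f : Ser A Q) : pr φ γ (pr φ δ f) = if γ = δ then pr φ γ f else 0 := by
  ext x
  by_cases hx : φ x = γ
  · rw [pr_c φ γ _ x hx]
    split_ifs with h
    · rw [pr_c φ δ _ x (hx.trans h), pr_c φ γ _ x hx]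
    · rw [pr_c_ne φ δ _ x fun h' => h (hx.symm.trans h')]
      rfl
  · rw [pr_c_ne φ γ _ x hx]
    split_ifs with h
    · rw [pr_c_ne φ γ _ x hx]
    · rfl

/-- the fibres which meet the support -/
def cos (f : Ser A Q) : Set Γ := φ '' Function.support f

theorem mem_cos {f : Ser A Q} {α : Γ} : α ∈ cos φ f ↔ ∃ x : Q, f x ≠ 0 ∧ φ x = α := Iff.rfl

theorem cos_add (f g : Ser A Q) : cos φ (f + g) ⊆ cos φ f ∪ cos φ g := by
  rintro _ ⟨x, hx, rfl⟩
  by_cases h : f x = 0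
  · refine Or.inr ⟨x, fun h' => hx ?_, rfl⟩
    rw [Ser.add_apply, h, h', add_zero]
  · exact Or.inl ⟨x, h, rfl⟩

theorem cos_mul (f g : Ser A Q) : cos φ (f * g) ⊆ cos φ f * cos φ g := by
  rintro _ ⟨x, hx, rfl⟩
  obtain ⟨a, ha, b, hb, rfl⟩ := Set.mem_mul.1 (Ser.support_mul f g hx)
  exact Set.mem_mul.2 ⟨_, ⟨a, ha, rfl⟩, _, ⟨b, hb, rfl⟩, (map_mul φ a b).symm⟩

theorem cos_single (q : Q) (a : A) : cos φ (Ser.single q a) ⊆ {φ q} := by
  rintro _ ⟨x, hx, rfl⟩
  by_cases h : x = q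
  · rw [h]
    rfl
  · exact absurd (Ser.single_ne h a) hx

/-- the series which meet finitely many fibres -/
def SN : Subring (Ser A Q) where
  carrier := {f | (cos φ f).Finite}
  mul_mem' := by
    intro f g hf hg
    exact (Set.Finite.mul hf hg).subset (cos_mul φ f g)
  one_mem' := (Set.finite_singleton (φ 1)).subset (cos_single φ 1 1)
  add_mem' := by
    intro f g hf hg
    exact (Set.Finite.union hf hg).subset (cos_add φ f g)
  zero_mem' := by
    refine Set.finite_empty.subset ?_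
    rintro _ ⟨x, hx, rfl⟩
    exact absurd (Ser.zero_apply x) hx
  neg_mem' := by
    intro f hf
    refine Set.Finite.subset hf ?_
    rintro _ ⟨x, hx, rfl⟩
    refine ⟨x, fun h => hx ?_, rfl⟩
    rw [Ser.neg_apply, h, neg_zero]

theorem mem_SN {f : Ser A Q} : f ∈ SN φ ↔ (cos φ f).Finite := Iff.rfl

theorem single_mem_SN (q : Q) (a : A) : Ser.single q a ∈ (SN φ : Subring (Ser A Q)) :=
  (Set.finite_singleton (φ q)).subset (cos_single φ q a)

theorem pr_eq_zero {f : Ser A Q} {α : Γ} (h : α ∉ cos φ f) : pr φ α f = 0 := by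
  ext x
  by_cases hx : φ x = α
  · rw [pr_c φ _ _ _ hx]
    by_contra h0
    exact h ⟨x, h0, hx⟩
  · rw [pr_c_ne φ _ _ _ hx]
    rfl

theorem supp_pr {α : Γ} {f : Ser A Q} {x : Q} (h : pr φ α f x ≠ 0) : φ x = α := by
  by_contra h0
  exact h (pr_c_ne φ _ _ _ h0)

open Classical in
theorem pr_sum_pr (M : Finset Γ) (f : Ser A Q) (β : Γ) :
    pr φ β (∑ α ∈ M, pr φ α f) = if β ∈ M then pr φ β f else 0 := by
  rw [map_sum]
  simp_rw [pr_pr]
  rw [Finset.sum_ite_eq]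

/-- the decomposition -/
theorem sum_pr (M : Finset Γ) (f : Ser A Q) (h : cos φ f ⊆ M) : ∑ α ∈ M, pr φ α f = f := by
  classical
  rw [← sub_eq_zero]
  refine eq_zero_of_pr φ fun β => ?_
  rw [map_sub, pr_sum_pr]
  split_ifs with hβ
  · rw [sub_self]
  · rw [pr_eq_zero φ fun h' => hβ (h h'), sub_zero]

/-- `f` supported over `μ` -/
theorem pr_mul_of_left {μ : Γ} {f : Ser A Q} (hf : ∀ x, f x ≠ 0 → φ x = μ) (α : Γ) (g : Ser A Q) :
    pr φ α (f * g) = f * pr φ (μ⁻¹ * α) g := by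
  have h := Ser.restr_mul_left φ hf g (μ⁻¹ * α)
  rw [mul_inv_cancel_left] at h
  exact h

/-- `g` supported over `ν` -/
theorem pr_mul_of_right {ν : Γ} {g : Ser A Q} (hg : ∀ x, g x ≠ 0 → φ x = ν) (α : Γ) (f : Ser A Q) :
    pr φ α (f * g) = pr φ (α * ν⁻¹) f * g := by
  have h := Ser.restr_mul_right φ hg f (α * ν⁻¹)
  rw [inv_mul_cancel_right] at h
  exact h

/-- a component of a product -/
theorem pr_mul_left (M : Finset Γ) (s : Ser A Q) (h : cos φ s ⊆ M) (α : Γ) (a : Ser A Q) :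
    pr φ α (s * a) = ∑ μ ∈ M, pr φ μ s * pr φ (μ⁻¹ * α) a := by
  conv_lhs => rw [← sum_pr φ M s h]
  rw [Finset.sum_mul, map_sum]
  exact Finset.sum_congr rfl fun μ _ => pr_mul_of_left φ (fun _ hx => supp_pr φ hx) α a

/-- a component of a product -/
theorem pr_mul_right (M : Finset Γ) (s : Ser A Q) (h : cos φ s ⊆ M) (α : Γ) (b : Ser A Q) :
    pr φ α (b * s) = ∑ ν ∈ M, pr φ (α * ν⁻¹) b * pr φ ν s := by
  conv_lhs => rw [← sum_pr φ M s h]
  rw [Finset.mul_sum, map_sum]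
  exact Finset.sum_congr rfl fun ν _ => pr_mul_of_right φ (fun _ hx => supp_pr φ hx) α b

end

end Pool.Agent.TW.F
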